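import Pool.Agent.V7H52.AG.A8

set_option autoImplicit false
set_option linter.unusedSectionVars false

open Filter Topology Set Metric MeasureTheory

namespace Pool.Agent.V7H52.PG

open Pool.Agent.H789R2.AN Pool.Agent.Y330.G Pool.Agent.N520.T Pool.Agent.H721R2
  Pool.Agent.Y321.PJ Pool.Agent.V7H52.AG

variable {X : Type*} [MetricSpace X]

/-- The number of separated points. -/
noncomputable def cnt (g : X ≃ₜ X) (s : ℝ) (n : ℕ) (L : Set X) : ℝ := Lam g (fun _ => 0) s n L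

theorem ps_zero (g : X ≃ₜ X) (n : ℕ) (F : Finset X) : ps g (fun _ => 0) n F = F.card := by
  simp [ps, birkhoffSum]

theorem cnt_le {g : X ≃ₜ X} {s : ℝ} {n : ℕ} {L : Set X} {a : ℝ}
    (h : ∀ F : Finset X, (F : Set X) ⊆ L → Sep g s n F → (F.card : ℝ) ≤ a) : cnt g s n L ≤ a :=
  lam_le fun F hF hs => by rw [ps_zero]; exact h F hF hs

variable [CompactSpace X]

theorem zero_bd : ∀ x : X, |(fun _ : X => (0 : ℝ)) x| ≤ 0 := fun _ => by simp

theorem le_cnt {g : X ≃ₜ X} {s : ℝ} (hs : 0 < s) {n : ℕ} {L : Set X} {F : Finset X}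
    (hF : (F : Set X) ⊆ L) (hsep : Sep g s n F) : (F.card : ℝ) ≤ cnt g s n L := by
  rw [← ps_zero g n]
  exact le_lam (B := 0) zero_bd hs hF hsep

theorem cnt_nonneg {g : X ≃ₜ X} {s : ℝ} (hs : 0 < s) (n : ℕ) (L : Set X) : 0 ≤ cnt g s n L :=
  lam_nonneg (B := 0) zero_bd hs n L

theorem cnt_mono {g : X ≃ₜ X} {s : ℝ} (hs : 0 < s) {n : ℕ} {L L' : Set X} (h : L ⊆ L') :
    cnt g s n L ≤ cnt g s n L' := lam_mono (B := 0) zero_bd hs h

theorem cnt_time {g : X ≃ₜ X} {s : ℝ} (hs : 0 < s) (n j : ℕ) (L : Set X) :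
    cnt g s n L ≤ cnt g s (n + j) L := by
  have := lam_time (g := g) (B := 0) zero_bd hs n j L
  simpa [cnt] using this

theorem cnt_scale {g : X ≃ₜ X} {s s' : ℝ} (hs : 0 < s) (h : s ≤ s') (n : ℕ) (L : Set X) :
    cnt g s' n L ≤ cnt g s n L := lam_scale (B := 0) zero_bd hs h n L

/-- Submultiplicativity. -/
theorem cnt_sub {g : X ≃ₜ X} {s : ℝ} (hs : 0 < s) (n k : ℕ) (L : Set X) :
    cnt g s (n + k) L ≤ cnt g (s / 2) n L * cnt g s k (g^[n] '' L) := by
  classical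
  refine cnt_le fun F hF hsep => ?_
  obtain ⟨F₁, hF₁, hs₁, hmax⟩ := exists_max_sep (g := g) (half_pos hs).le n F
  have hch : ∀ y, ∃ z, y ∈ F → z ∈ F₁ ∧ ∀ k ≤ n, dist (g^[k] y) (g^[k] z) ≤ s / 2 := by
    intro y
    by_cases hy : y ∈ F
    · obtain ⟨z, h1, h2⟩ := hmax y hy
      exact ⟨z, fun _ => ⟨h1, h2⟩⟩
    · exact ⟨y, fun h => absurd h hy⟩
  choose π hπ using hch
  have hfib : ∀ z ∈ F₁, ((F.filter (fun y => π y = z)).card : ℝ) ≤ cnt g s k (g^[n] '' L) := by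
    intro z hz
    rw [← Finset.card_image_of_injective _ (iter_inj g n)]
    refine le_cnt hs ?_ ?_
    · rw [Finset.coe_image]
      exact image_mono fun y hy => hF (Finset.mem_filter.mp hy).1
    · intro a ha b hb hab
      obtain ⟨y, hy, rfl⟩ := Finset.mem_image.mp ha
      obtain ⟨y', hy', rfl⟩ := Finset.mem_image.mp hb
      rw [Finset.mem_filter] at hy hy'
      have hne : y ≠ y' := fun e => hab (by rw [e])
      obtain ⟨i, hi, h3⟩ := hsep y hy.1 y' hy'.1 hne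
      have hin : n < i := by
        by_contra hcon
        push Not at hcon
        have h4 := (hπ y hy.1).2 i hcon
        have h5 := (hπ y' hy'.1).2 i hcon
        rw [hy.2] at h4
        rw [hy'.2] at h5
        have := dist_triangle_right (g^[i] y) (g^[i] y') (g^[i] z)
        linarith
      refine ⟨i - n, by omega, ?_⟩
      rw [← Function.iterate_add_apply, ← Function.iterate_add_apply]
      have e : i - n + n = i := by omega
      rwa [e]
  have h1 : F.card = ∑ z ∈ F₁, (F.filter (fun y => π y = z)).card :=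
    Finset.card_eq_sum_card_fiberwise fun y hy => (hπ y hy).1
  have h2 : (F₁.card : ℝ) ≤ cnt g (s / 2) n L :=
    le_cnt (half_pos hs) (fun y hy => hF (hF₁ hy)) hs₁
  calc (F.card : ℝ) = ∑ z ∈ F₁, ((F.filter (fun y => π y = z)).card : ℝ) := by
        rw [h1]; push_cast; rfl
    _ ≤ ∑ z ∈ F₁, cnt g s k (g^[n] '' L) := Finset.sum_le_sum hfib
    _ = F₁.card * cnt g s k (g^[n] '' L) := by rw [Finset.sum_const, nsmul_eq_mul]
    _ ≤ _ := mul_le_mul_of_nonneg_right h2 (cnt_nonneg hs _ _)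

/-- Comparison with shadowing points. -/
theorem cnt_near {g : X ≃ₜ X} {s s' ε : ℝ} (hs' : 0 < s') (he : s' + 2 * ε ≤ s) {n : ℕ}
    {L L' : Set X} (h : ∀ y ∈ L, ∃ z ∈ L', ∀ k ≤ n, dist (g^[k] y) (g^[k] z) ≤ ε) :
    cnt g s n L ≤ cnt g s' n L' := by
  classical
  refine cnt_le fun F hF hsep => ?_
  have hch : ∀ y, ∃ z, y ∈ F → z ∈ L' ∧ ∀ k ≤ n, dist (g^[k] y) (g^[k] z) ≤ ε := by
    intro y
    by_cases hy : y ∈ F
    · obtain ⟨z, h1, h2⟩ := h y (hF hy)
      exact ⟨z, fun _ => ⟨h1, h2⟩⟩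
    · exact ⟨y, fun h => absurd h hy⟩
  choose Ψ hΨ using hch
  have hs1 : ∀ y ∈ F, ∀ y' ∈ F, y ≠ y' → ∃ k ≤ n, s' < dist (g^[k] (Ψ y)) (g^[k] (Ψ y')) := by
    intro y hy y' hy' hne
    obtain ⟨k, hk, h1⟩ := hsep y hy y' hy' hne
    refine ⟨k, hk, ?_⟩
    have h2 := (hΨ y hy).2 k hk
    have h3 := (hΨ y' hy').2 k hk
    have := dist_triangle4_right (g^[k] y) (g^[k] y') (g^[k] (Ψ y)) (g^[k] (Ψ y'))
    linarith
  have hinj : Set.InjOn Ψ F := by
    intro y hy y' hy' he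
    by_contra hne
    obtain ⟨k, -, hk⟩ := hs1 y hy y' hy' hne
    rw [he, dist_self] at hk
    linarith
  rw [← Finset.card_image_of_injOn hinj]
  refine le_cnt hs' ?_ ?_
  · rw [Finset.coe_image]
    rintro _ ⟨y, hy, rfl⟩
    exact (hΨ y hy).1
  · intro a ha b hb hab
    obtain ⟨y, hy, rfl⟩ := Finset.mem_image.mp ha
    obtain ⟨y', hy', rfl⟩ := Finset.mem_image.mp hb
    exact hs1 y hy y' hy' fun e => hab (by rw [e])

/-- Reversal of the orbits. -/
theorem cnt_rev {g : X ≃ₜ X} {s : ℝ} (hs : 0 < s) (n : ℕ) (L : Set X) :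
    cnt g s n L ≤ cnt g.symm s n (g^[n] '' L) := by
  classical
  refine cnt_le fun F hF hsep => ?_
  rw [← Finset.card_image_of_injective _ (iter_inj g n)]
  refine le_cnt hs ?_ ?_
  · rw [Finset.coe_image]
    exact image_mono hF
  · intro a ha b hb hab
    obtain ⟨y, hy, rfl⟩ := Finset.mem_image.mp ha
    obtain ⟨y', hy', rfl⟩ := Finset.mem_image.mp hb
    obtain ⟨k, hk, h1⟩ := hsep y hy y' hy' fun e => hab (by rw [e])
    refine ⟨n - k, by omega, ?_⟩
    rw [bk g (by omega), bk g (by omega)]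
    have e : n - (n - k) = k := by omega
    rwa [e]

/-- Exponential bound of the number of separated points. -/
theorem cnt_univ [Nonempty X] {g : X ≃ₜ X} {c : ℝ} (h : LP g c) : ∃ H : ℝ, ∀ s > 0, ∃ K > 0,
    ∀ n : ℕ, cnt g s n univ ≤ K * Real.exp (n * H) := by
  classical
  have hc := h.c_pos
  obtain ⟨H, hH⟩ := sep_exp h
  refine ⟨H, fun s hs => ?_⟩
  obtain ⟨K, hK, hK1⟩ := hH (s / 2) (half_pos hs)
  have hτ : 0 < min (c / 4) (s / 4) := lt_min (by linarith) (by linarith)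
  obtain ⟨δ, hδ, hlp⟩ := h.lp _ hτ
  obtain ⟨t, -, htf, hcov⟩ := (isCompact_univ (X := X)).finite_cover_balls hδ
  refine ⟨(htf.toFinset.card + 1) * K, by positivity, fun n => ?_⟩
  have h1 : cnt g s n univ ≤ ∑ x ∈ htf.toFinset, cnt g s n (ball x δ) := by
    refine (cnt_mono hs ?_).trans (lam_cover (B := 0) zero_bd hs n htf.toFinset fun x => ball x δ)
    intro y hy
    obtain ⟨x, hx, hyx⟩ := mem_iUnion₂.mp (hcov hy)
    exact mem_iUnion₂.mpr ⟨x, htf.mem_toFinset.mpr hx, hyx⟩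
  have h2 : ∀ x ∈ htf.toFinset, cnt g s n (ball x δ) ≤ K * Real.exp (n * H) := by
    intro x _
    calc cnt g s n (ball x δ) ≤ cnt g (s / 2) n {z | SR g.symm (c / 4) x z} := by
          refine cnt_near (half_pos hs) (ε := s / 4) (by linarith) fun y hy => ?_
          obtain ⟨z, hz1, hz2⟩ := hlp y x hy
          exact ⟨z, hz2.mono (min_le_left _ _), fun k _ => (hz1 k).trans (min_le_right _ _)⟩
      _ ≤ _ := cnt_le fun F hF hsep => hK1 n x F (fun y hy => hF hy) hsep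
  calc cnt g s n univ ≤ ∑ x ∈ htf.toFinset, cnt g s n (ball x δ) := h1
    _ ≤ ∑ x ∈ htf.toFinset, K * Real.exp (n * H) := Finset.sum_le_sum h2
    _ = htf.toFinset.card * (K * Real.exp (n * H)) := by rw [Finset.sum_const, nsmul_eq_mul]
    _ ≤ (htf.toFinset.card + 1) * (K * Real.exp (n * H)) := by
      apply mul_le_mul_of_nonneg_right (by linarith)
      positivity
    _ = _ := by ring

/-- Compact parts of the basin are absorbed. -/
theorem absorb {g : X ≃ₜ X} {c : ℝ} (h : LP g c) {A : Set X} (hA : IsAtt g A) {K : Set X}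
    (hK : IsCompact K) (hKA : K ⊆ Bas g A) {τ : ℝ} (hτ : 0 < τ) :
    ∃ m₀ : ℕ, ∀ m ≥ m₀, ∀ y ∈ K, ∃ z ∈ A, SR g τ (g^[m] y) z := by
  have hc := h.c_pos
  have hτ' : 0 < min τ c := lt_min hτ hc
  obtain ⟨δ, hδ, hlp⟩ := h.lp _ hτ'
  refine hK.induction_on (p := fun S => ∃ m₀ : ℕ, ∀ m ≥ m₀, ∀ y ∈ S, ∃ z ∈ A, SR g τ (g^[m] y) z)
    ?_ ?_ ?_ ?_
  · exact ⟨0, fun m _ y hy => absurd hy (notMem_empty y)⟩
  · rintro S T hST ⟨m₀, h0⟩
    exact ⟨m₀, fun m hm y hy => h0 m hm y (hST hy)⟩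
  · rintro S T ⟨m₀, h0⟩ ⟨m₁, h1⟩
    refine ⟨max m₀ m₁, fun m hm y hy => ?_⟩
    rcases hy with hy | hy
    · exact h0 m ((le_max_left _ _).trans hm) y hy
    · exact h1 m ((le_max_right _ _).trans hm) y hy
  · intro w hw
    obtain ⟨z, hz, hwz⟩ := hKA hw
    obtain ⟨m₀, hm₀⟩ := hwz.eventually_lt hδ
    have h1 : {w' | dist (g^[m₀] w') (g^[m₀] z) < δ} ∈ 𝓝 w := by
      have hcont : Continuous fun w' => dist (g^[m₀] w') (g^[m₀] z) :=
        (g.continuous.iterate m₀).dist continuous_const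
      exact (isOpen_lt hcont continuous_const).mem_nhds (hm₀ m₀ le_rfl)
    refine ⟨_, mem_nhdsWithin_of_mem_nhds h1, m₀, fun m hm w' hw' => ?_⟩
    obtain ⟨v, hv1, hv2⟩ := hlp _ _ hw'
    have hvA : v ∈ A := hA.sat _ ((inv_iter hA.inv m₀ z).mpr hz) v
      (WS.of_SR (h.cU _ _ (hv2.mono (min_le_right _ _))))
    refine ⟨g^[m - m₀] v, (inv_iter hA.inv _ _).mpr hvA, fun k => ?_⟩
    have h3 := (hv1 (k + (m - m₀))).trans (min_le_left _ _)
    rw [Function.iterate_add_apply, Function.iterate_add_apply,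
      ← Function.iterate_add_apply g (m - m₀) m₀] at h3
    have e : m - m₀ + m₀ = m := by omega
    rwa [e] at h3

/-- The number of separated points in a compact part of the basin. -/
theorem cnt_bas {g : X ≃ₜ X} {c : ℝ} (h : LP g c) {A : Set X} (hA : IsAtt g A) {α : ℝ}
    (hα : ∀ s > 0, ∃ C > 0, ∀ n : ℕ, cnt g s n A ≤ C * Real.exp (n * α)) {K : Set X}
    (hK : IsCompact K) (hKA : K ⊆ Bas g A) :
    ∀ s > 0, ∃ C > 0, ∀ n : ℕ, cnt g s n K ≤ C * Real.exp (n * α) := by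
  intro s hs
  obtain ⟨m₀, hm₀⟩ := absorb h hA hK hKA (τ := s / 4) (by linarith)
  obtain ⟨C, hC, hn⟩ := hα (s / 2) (half_pos hs)
  have h0 := cnt_nonneg (g := g) (half_pos hs) m₀ K
  refine ⟨(cnt g (s / 2) m₀ K + 1) * C, by positivity, fun n => ?_⟩
  have h1 : cnt g s n (g^[m₀] '' K) ≤ cnt g (s / 2) n A := by
    refine cnt_near (half_pos hs) (ε := s / 4) (by linarith) ?_
    rintro _ ⟨y, hy, rfl⟩
    obtain ⟨z, hz, h2⟩ := hm₀ m₀ le_rfl y hy
    exact ⟨z, hz, fun k _ => h2 k⟩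
  calc cnt g s n K ≤ cnt g s (n + m₀) K := cnt_time hs n m₀ K
    _ = cnt g s (m₀ + n) K := by rw [add_comm]
    _ ≤ cnt g (s / 2) m₀ K * cnt g s n (g^[m₀] '' K) := cnt_sub hs m₀ n K
    _ ≤ (cnt g (s / 2) m₀ K + 1) * (C * Real.exp (n * α)) := by
      have := h1.trans (hn n)
      have h3 := cnt_nonneg (g := g) hs n (g^[m₀] '' K)
      apply mul_le_mul (by linarith) this h3 (by linarith)
    _ = _ := by ring

end Pool.Agent.V7H52.PG
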