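import Pool.Agent.V7H52.PG.B1

set_option autoImplicit false
set_option linter.unusedSectionVars false

open Filter Topology Set Metric MeasureTheory

namespace Pool.Agent.V7H52.PG

open Pool.Agent.H789R2.AN Pool.Agent.Y330.G Pool.Agent.N520.T Pool.Agent.H721R2
  Pool.Agent.Y321.PJ Pool.Agent.V7H52.AG

variable {X : Type*} [MetricSpace X]

theorem sum_low {w : ℕ → ℝ} (h0 : ∀ l, 0 ≤ w l) {i n : ℕ} {S : Finset ℕ}
    (hS : S ⊆ Finset.range n) (h1 : ∀ l ∈ S, w l = 1) (hi : i ≤ S.card) :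
    (i : ℝ) ≤ ∑ l ∈ Finset.range n, w l := by
  calc (i : ℝ) ≤ S.card := by exact_mod_cast hi
    _ = ∑ l ∈ S, w l := by rw [Finset.sum_congr rfl h1]; simp
    _ ≤ _ := Finset.sum_le_sum_of_subset_of_nonneg hS fun l _ _ => h0 l

theorem geo_exp (n : ℕ) : ∑ d ∈ Finset.range n, Real.exp (-(d : ℝ)) ≤ 2 := by
  refine le_trans (Finset.sum_le_sum fun d _ => ?_) (sum_half n)
  have h1 : Real.exp (-(d : ℝ)) = Real.exp (-1) ^ d := by
    rw [← Real.exp_nat_mul]
    congr 1
    ring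
  rw [h1]
  apply pow_le_pow_left₀ (Real.exp_pos _).le
  rw [Real.exp_neg, one_div]
  apply inv_anti₀ (by norm_num)
  linarith [Real.add_one_le_exp (1 : ℝ)]

/-- The orbit decomposition. -/
theorem exists_ij {g : X ≃ₜ X} {KA KR KR' : Set X} {m₀ : ℕ}
    (hm : ∀ y ∈ KA, ∀ m ≥ m₀, g^[m] y ∉ KR) (hKR' : ∀ w ∈ KR, ∀ l ≤ m₀, g.symm^[l] (g w) ∈ KR')
    (n : ℕ) (y : X) : ∃ j ≤ n, ∃ i ≤ j, (i = 0 ∨ g^[i] y ∈ KR') ∧ (j = n ∨ g^[j] y ∈ KA) ∧
      (∀ l < j, g^[l] y ∉ KA) ∧ ∀ l, i + m₀ ≤ l → l < n → g^[l] y ∉ KR := by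
  classical
  have hex : ∃ l, l = n ∨ g^[l] y ∈ KA := ⟨n, Or.inl rfl⟩
  set j := Nat.find hex with hj
  have hj1 : j = n ∨ g^[j] y ∈ KA := Nat.find_spec hex
  have hj2 : ∀ l < j, ¬(l = n ∨ g^[l] y ∈ KA) := fun l hl => Nat.find_min hex hl
  have hjn : j ≤ n := Nat.find_min' hex (Or.inl rfl)
  refine ⟨j, hjn, ?_⟩
  by_cases hR : ∃ l < n, g^[l] y ∈ KR
  · obtain ⟨l₀, hl₀, hmax⟩ : ∃ l₀, (l₀ < n ∧ g^[l₀] y ∈ KR) ∧
        ∀ l, l < n → g^[l] y ∈ KR → l ≤ l₀ := by
      set T := (Finset.range n).filter fun l => g^[l] y ∈ KR with hT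
      have hTn : T.Nonempty := by
        obtain ⟨l, hl, h1⟩ := hR
        exact ⟨l, by simp [hT, hl, h1]⟩
      obtain ⟨l₀, h1, h2⟩ := T.exists_max_image id hTn
      refine ⟨l₀, by simpa [hT] using h1, fun l hl h3 => h2 l (by simp [hT, hl, h3])⟩
    have hlj : l₀ < j + m₀ := by
      rcases hj1 with h1 | h1
      · omega
      · by_contra hcon
        push Not at hcon
        have h2 := hm _ h1 (l₀ - j) (by omega)
        rw [← Function.iterate_add_apply] at h2
        have e : l₀ - j + j = l₀ := by omega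
        rw [e] at h2
        exact h2 hl₀.2
    refine ⟨min (l₀ + 1) j, min_le_right _ _, Or.inr ?_, hj1, fun l hl h => hj2 l hl (Or.inr h),
      fun l hl hln h => ?_⟩
    · have h1 := hKR' _ hl₀.2 (l₀ + 1 - min (l₀ + 1) j) (by omega)
      rw [← Function.iterate_succ_apply' g l₀ y, bk g (by omega)] at h1
      have e : l₀.succ - (l₀ + 1 - min (l₀ + 1) j) = min (l₀ + 1) j := by omega
      rwa [e] at h1
    · have := hmax l hln h
      omega
  · push Not at hR
    exact ⟨0, by omega, Or.inl rfl, hj1, fun l hl h => hj2 l hl (Or.inr h),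
      fun l _ hln => hR l hln⟩

variable [CompactSpace X]

theorem decomp {g : X ≃ₜ X} {KA KR KR' : Set X} {m₀ : ℕ}
    (hm : ∀ y ∈ KA, ∀ m ≥ m₀, g^[m] y ∉ KR) (hKR' : ∀ w ∈ KR, ∀ l ≤ m₀, g.symm^[l] (g w) ∈ KR')
    {α β H L : ℝ} (hα : ∀ s > 0, ∃ C > 0, ∀ n : ℕ, cnt g s n KA ≤ C * Real.exp (n * α))
    (hβ : ∀ s > 0, ∃ C > 0, ∀ n : ℕ, cnt g.symm s n KR' ≤ C * Real.exp (n * β))
    (hH : ∀ s > 0, ∃ C > 0, ∀ n : ℕ, cnt g s n univ ≤ C * Real.exp (n * H))
    (hL : H - α - β + 1 ≤ L) (hu : 0 ≤ β + L) (hv : 0 ≤ α + L) {φ a b : X → ℝ} {B : ℝ}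
    (hφB : ∀ x, |φ x| ≤ B) (hφ : ∀ x, φ x = -((β + L) * a x + (α + L) * b x))
    (ha0 : ∀ x, 0 ≤ a x) (hb0 : ∀ x, 0 ≤ b x) (ha1 : ∀ x ∉ KA, a x = 1)
    (hb1 : ∀ x ∉ KR, b x = 1) :
    ∀ s > 0, ∃ C > 0, ∀ n : ℕ, Lam g φ s n univ ≤ C * ((n + 1) * Real.exp (-(n * L))) := by
  classical
  intro s hs
  obtain ⟨C₁, hC₁, h1⟩ := hβ (s / 2) (half_pos hs)
  obtain ⟨C₂, hC₂, h2⟩ := hH (s / 2) (half_pos hs)
  obtain ⟨C₃, hC₃, h3⟩ := hα s hs
  obtain ⟨C₄, hC₄, h4⟩ := hH s hs
  set D : ℕ → ℕ → ℕ → Set X := fun n i j => {y | (i = 0 ∨ g^[i] y ∈ KR') ∧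
    (j = n ∨ g^[j] y ∈ KA) ∧ (∀ l < j, g^[l] y ∉ KA) ∧
      ∀ l, i + m₀ ≤ l → l < n → g^[l] y ∉ KR} with hD
  set C₅ : ℝ := (C₁ + C₂) * (C₂ * (C₃ + C₄)) * Real.exp ((α + L) * m₀) with hC₅
  have hC₅0 : 0 < C₅ := by positivity
  have key : ∀ n i j : ℕ, i ≤ j → j ≤ n →
      Lam g φ s n (D n i j) ≤ C₅ * (Real.exp (-(n * L)) * Real.exp (-((j - i : ℕ) : ℝ))) := by
    intro n i j hij hjn
    have hcij : ((j - i : ℕ) : ℝ) = (j : ℝ) - i := by push_cast [hij]; ring
    have hcnj : ((n - j : ℕ) : ℝ) = (n : ℝ) - j := by push_cast [hjn]; ring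
    -- the count
    have c1 : cnt g (s / 2) i (D n i j) ≤ (C₁ + C₂) * Real.exp (i * β) := by
      by_cases hi : i = 0
      · have := (cnt_mono (g := g) (half_pos hs) (n := i) (subset_univ (D n i j))).trans (h2 i)
        rw [hi] at this ⊢
        simp only [Nat.cast_zero, zero_mul, Real.exp_zero, mul_one] at this ⊢
        linarith
      · have h5 : g^[i] '' (D n i j) ⊆ KR' := by
          rintro _ ⟨y, hy, rfl⟩
          exact hy.1.resolve_left hi
        calc cnt g (s / 2) i (D n i j) ≤ cnt g.symm (s / 2) i (g^[i] '' (D n i j)) :=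
              cnt_rev (half_pos hs) i _
          _ ≤ cnt g.symm (s / 2) i KR' := cnt_mono (half_pos hs) h5
          _ ≤ C₁ * Real.exp (i * β) := h1 i
          _ ≤ _ := by
            have : C₁ ≤ C₁ + C₂ := by linarith
            gcongr
    have c2 : cnt g (s / 2) (j - i) (g^[i] '' (D n i j)) ≤ C₂ * Real.exp ((j - i : ℕ) * H) :=
      (cnt_mono (half_pos hs) (subset_univ _)).trans (h2 _)
    have c3 : cnt g s (n - j) (g^[j - i] '' (g^[i] '' (D n i j))) ≤
        (C₃ + C₄) * Real.exp ((n - j : ℕ) * α) := by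
      by_cases hj : j = n
      · have := (cnt_mono (g := g) hs (n := n - j)
          (subset_univ (g^[j - i] '' (g^[i] '' (D n i j))))).trans (h4 (n - j))
        have e : n - j = 0 := by omega
        rw [e] at this ⊢
        simp only [Nat.cast_zero, zero_mul, Real.exp_zero, mul_one] at this ⊢
        linarith
      · have h5 : g^[j - i] '' (g^[i] '' (D n i j)) ⊆ KA := by
          rintro _ ⟨_, ⟨y, hy, rfl⟩, rfl⟩
          rw [← Function.iterate_add_apply]
          have e : j - i + i = j := by omega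
          rw [e]
          exact hy.2.1.resolve_left hj
        calc cnt g s (n - j) (g^[j - i] '' (g^[i] '' (D n i j))) ≤ cnt g s (n - j) KA :=
              cnt_mono hs h5
          _ ≤ C₃ * Real.exp ((n - j : ℕ) * α) := h3 _
          _ ≤ _ := by
            have : C₃ ≤ C₃ + C₄ := by linarith
            gcongr
    have c4 : cnt g s n (D n i j) ≤ (C₁ + C₂) * Real.exp (i * β) *
        (C₂ * Real.exp ((j - i : ℕ) * H) * ((C₃ + C₄) * Real.exp ((n - j : ℕ) * α))) := by
      have e1 : n = i + ((j - i) + (n - j)) := by omega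
      calc cnt g s n (D n i j) = cnt g s (i + ((j - i) + (n - j))) (D n i j) := by rw [← e1]
        _ ≤ cnt g (s / 2) i (D n i j) * cnt g s ((j - i) + (n - j)) (g^[i] '' (D n i j)) :=
          cnt_sub hs _ _ _
        _ ≤ cnt g (s / 2) i (D n i j) * (cnt g (s / 2) (j - i) (g^[i] '' (D n i j)) *
            cnt g s (n - j) (g^[j - i] '' (g^[i] '' (D n i j)))) := by
          have := cnt_nonneg (g := g) (half_pos hs) i (D n i j)
          have h5 := cnt_sub (g := g) hs (j - i) (n - j) (g^[i] '' (D n i j))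
          gcongr
        _ ≤ _ := by
          have p1 := cnt_nonneg (g := g) (half_pos hs) i (D n i j)
          have p2 := cnt_nonneg (g := g) (half_pos hs) (j - i) (g^[i] '' (D n i j))
          have p3 := cnt_nonneg (g := g) hs (n - j) (g^[j - i] '' (g^[i] '' (D n i j)))
          gcongr
    -- the potential
    have c5 : ∀ y ∈ D n i j, birkhoffSum g φ n y ≤
        birkhoffSum g (fun _ => 0) n y + (-((β + L) * j) - (α + L) * (n - i - m₀)) := by
      intro y hy
      obtain ⟨-, -, hy3, hy4⟩ := hy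
      have e1 : birkhoffSum g φ n y = -((β + L) * ∑ l ∈ Finset.range n, a (g^[l] y) +
          (α + L) * ∑ l ∈ Finset.range n, b (g^[l] y)) := by
        unfold birkhoffSum
        rw [Finset.mul_sum, Finset.mul_sum, ← Finset.sum_add_distrib, ← Finset.sum_neg_distrib]
        exact Finset.sum_congr rfl fun l _ => hφ _
      have e2 : birkhoffSum g (fun _ : X => (0 : ℝ)) n y = 0 := by simp [birkhoffSum]
      have e3 : (j : ℝ) ≤ ∑ l ∈ Finset.range n, a (g^[l] y) :=
        sum_low (fun l => ha0 _) (S := Finset.range j)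
          (Finset.range_subset_range.mpr hjn) (fun l hl => ha1 _ (hy3 l (Finset.mem_range.mp hl)))
          (by simp)
      have e4 : (n : ℝ) - i - m₀ ≤ ∑ l ∈ Finset.range n, b (g^[l] y) := by
        have e5 : ((n - (i + m₀) : ℕ) : ℝ) ≤ ∑ l ∈ Finset.range n, b (g^[l] y) :=
          sum_low (fun l => hb0 _) (S := Finset.Ico (i + m₀) n)
            (fun l hl => Finset.mem_range.mpr (Finset.mem_Ico.mp hl).2)
            (fun l hl => hb1 _ (hy4 l (Finset.mem_Ico.mp hl).1 (Finset.mem_Ico.mp hl).2))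
            (by simp)
        have e6 : (n : ℝ) - ((i + m₀ : ℕ) : ℝ) ≤ ((n - (i + m₀) : ℕ) : ℝ) := by
          rw [sub_le_iff_le_add]
          exact_mod_cast (by omega : n ≤ n - (i + m₀) + (i + m₀))
        push_cast at e6
        linarith
      rw [e1, e2]
      have := mul_le_mul_of_nonneg_left e3 hu
      have := mul_le_mul_of_nonneg_left e4 hv
      linarith
    have c6 := lam_cmp (g := g) (ψ := fun _ => 0) (B := 0) zero_bd hs c5
    refine c6.trans ?_
    calc Real.exp (-((β + L) * j) - (α + L) * (n - i - m₀)) * cnt g s n (D n i j)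
        ≤ Real.exp (-((β + L) * j) - (α + L) * (n - i - m₀)) * ((C₁ + C₂) * Real.exp (i * β) *
        (C₂ * Real.exp ((j - i : ℕ) * H) * ((C₃ + C₄) * Real.exp ((n - j : ℕ) * α)))) := by
          gcongr
      _ = (C₁ + C₂) * (C₂ * (C₃ + C₄)) * (Real.exp (-((β + L) * j) - (α + L) * (n - i - m₀)) *
          Real.exp (i * β) * Real.exp ((j - i : ℕ) * H) * Real.exp ((n - j : ℕ) * α)) := by ring
      _ = (C₁ + C₂) * (C₂ * (C₃ + C₄)) * Real.exp ((α + L) * m₀ +
          (-(n * L) - (j - i) * (L + α + β - H))) := by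
          rw [← Real.exp_add, ← Real.exp_add, ← Real.exp_add, hcij, hcnj]
          congr 2
          ring
      _ ≤ (C₁ + C₂) * (C₂ * (C₃ + C₄)) * Real.exp ((α + L) * m₀ +
          (-(n * L) + -((j - i : ℕ) : ℝ))) := by
          have : (0 : ℝ) ≤ (j : ℝ) - i := by rw [← hcij]; positivity
          have h6 : ((j : ℝ) - i) * 1 ≤ (j - i) * (L + α + β - H) :=
            mul_le_mul_of_nonneg_left (by linarith) this
          rw [hcij]
          gcongr
          linarith
      _ = _ := by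
          rw [Real.exp_add, Real.exp_add, hC₅]
          ring
  refine ⟨C₅ * 2, by positivity, fun n => ?_⟩
  set I : Finset (ℕ × ℕ) := (Finset.range (n + 1)).sigma (fun j => Finset.range (j + 1)) |>.map
    ⟨fun x => (x.1, x.2), fun x y h => by
      rcases x with ⟨x1, x2⟩; rcases y with ⟨y1, y2⟩; simp at h; simp [h]⟩ with hI
  have hcov : (univ : Set X) ⊆ ⋃ x ∈ I, D n x.2 x.1 := by
    intro y _
    obtain ⟨j, hj, i, hi, h5⟩ := exists_ij hm hKR' n y
    refine mem_iUnion₂.mpr ⟨(j, i), ?_, h5⟩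
    rw [hI, Finset.mem_map]
    refine ⟨⟨j, i⟩, ?_, rfl⟩
    simp only [Finset.mem_sigma, Finset.mem_range]
    omega
  have hE : 0 < Real.exp (-(n * L)) := Real.exp_pos _
  calc Lam g φ s n univ ≤ Lam g φ s n (⋃ x ∈ I, D n x.2 x.1) := lam_mono hφB hs hcov
    _ ≤ ∑ x ∈ I, Lam g φ s n (D n x.2 x.1) := lam_cover hφB hs n _ _
    _ ≤ ∑ x ∈ I, C₅ * (Real.exp (-(n * L)) * Real.exp (-((x.1 - x.2 : ℕ) : ℝ))) := by
        refine Finset.sum_le_sum fun x hx => ?_
        rw [hI, Finset.mem_map] at hx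
        obtain ⟨⟨j, i⟩, h5, rfl⟩ := hx
        simp only [Finset.mem_sigma, Finset.mem_range] at h5
        exact key n i j (by omega) (by omega)
    _ = ∑ j ∈ Finset.range (n + 1), ∑ i ∈ Finset.range (j + 1),
          C₅ * (Real.exp (-(n * L)) * Real.exp (-((j - i : ℕ) : ℝ))) := by
        rw [hI, Finset.sum_map, Finset.sum_sigma]
        rfl
    _ = ∑ j ∈ Finset.range (n + 1), C₅ * Real.exp (-(n * L)) *
          ∑ i ∈ Finset.range (j + 1), Real.exp (-((j - i : ℕ) : ℝ)) := by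
        refine Finset.sum_congr rfl fun j _ => ?_
        rw [Finset.mul_sum]
        exact Finset.sum_congr rfl fun i _ => by ring
    _ ≤ ∑ j ∈ Finset.range (n + 1), C₅ * Real.exp (-(n * L)) * 2 := by
        refine Finset.sum_le_sum fun j _ => ?_
        have h6 : ∑ i ∈ Finset.range (j + 1), Real.exp (-((j - i : ℕ) : ℝ)) =
            ∑ d ∈ Finset.range (j + 1), Real.exp (-(d : ℝ)) := by
          rw [← Finset.sum_range_reflect]
          refine Finset.sum_congr rfl fun d hd => ?_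
          rw [Finset.mem_range] at hd
          congr 2
          have : j - (j + 1 - 1 - d) = d := by omega
          rw [this]
        rw [h6]
        have := geo_exp (j + 1)
        gcongr
    _ = _ := by
        rw [Finset.sum_const, Finset.card_range, nsmul_eq_mul]
        push_cast
        ring

end Pool.Agent.V7H52.PG
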