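import Pool.Agent.V7H52.PG.B2

set_option autoImplicit false
set_option linter.unusedSectionVars false

open Filter Topology Set Metric MeasureTheory

namespace Pool.Agent.V7H52.PG

open Pool.Agent.H789R2.AN Pool.Agent.Y330.G Pool.Agent.N520.T Pool.Agent.H721R2
  Pool.Agent.Y321.PJ Pool.Agent.V7H52.AG

variable {X : Type*} [MetricSpace X] [CompactSpace X]

/-- The union of the images of an attractor of an iterate. -/
def Orb (f : X ≃ₜ X) (N : ℕ) (A : Set X) : Set X := {x | ∃ k < N, f^[k] x ∈ A}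

theorem ith_comm {g f : X ≃ₜ X} {N : ℕ} (hg : g = iterHomeo f N) (k : ℕ) (x : X) :
    f^[k] (g x) = g (f^[k] x) := by
  have h1 : ∀ y, g y = f^[N] y := fun y => by rw [hg]; rfl
  rw [h1, h1, ← Function.iterate_add_apply, ← Function.iterate_add_apply, add_comm]

theorem min_pre {g f : X ≃ₜ X} {N : ℕ} (hg : g = iterHomeo f N) {A : Set X} (hA : MinAtt g A)
    (k : ℕ) : MinAtt g {x | f^[k] x ∈ A} :=
  hA.preimage (φ := iterHomeo f k) fun x => ith_comm hg k x

theorem orb_inv {g f : X ≃ₜ X} {N : ℕ} (hN : 1 ≤ N) (hg : g = iterHomeo f N) {A : Set X}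
    (hA : ∀ x, g x ∈ A ↔ x ∈ A) (x : X) : f x ∈ Orb f N A ↔ x ∈ Orb f N A := by
  have h1 : ∀ y, g y = f^[N] y := fun y => by rw [hg]; rfl
  constructor
  · rintro ⟨k, hk, h2⟩
    rw [← Function.iterate_succ_apply] at h2
    rcases Nat.lt_or_ge (k + 1) N with h3 | h3
    · exact ⟨k + 1, h3, h2⟩
    · have e : k.succ = N := by omega
      rw [e, ← h1, hA] at h2
      exact ⟨0, by omega, h2⟩
  · rintro ⟨k, hk, h2⟩
    rcases Nat.eq_zero_or_pos k with h3 | h3
    · subst h3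
      refine ⟨N - 1, by omega, ?_⟩
      rw [← Function.iterate_succ_apply]
      have e : (N - 1).succ = N := by omega
      rw [e, ← h1, hA]
      exact h2
    · refine ⟨k - 1, by omega, ?_⟩
      rw [← Function.iterate_succ_apply]
      have e : (k - 1).succ = k := by omega
      rwa [e]

theorem orb_att {g f : X ≃ₜ X} {N : ℕ} (hN : 1 ≤ N) (hg : g = iterHomeo f N) {A : Set X}
    (hA : MinAtt g A) : IsAtt g (Orb f N A) := by
  have h0 := fun k => min_pre hg hA k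
  refine ⟨?_, ?_, fun x => ?_, ?_⟩
  · have : Orb f N A = ⋃ k ∈ Finset.range N, {x | f^[k] x ∈ A} := by
      ext x
      simp [Orb]
    rw [this]
    exact isClosed_biUnion_finset fun k _ => (h0 k).1.closed
  · obtain ⟨x, hx⟩ := hA.1.nonempty
    exact ⟨x, 0, by omega, hx⟩
  · constructor
    · rintro ⟨k, hk, h1⟩
      exact ⟨k, hk, ((h0 k).1.inv x).mp h1⟩
    · rintro ⟨k, hk, h1⟩
      exact ⟨k, hk, ((h0 k).1.inv x).mpr h1⟩
  · rintro x ⟨k, hk, h1⟩ y hxy
    exact ⟨k, hk, (h0 k).1.sat x h1 y hxy⟩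

theorem orb_sub_tot {g f : X ≃ₜ X} {N : ℕ} (hg : g = iterHomeo f N) {A : Set X}
    (hA : MinAtt g A) : Orb f N A ⊆ Tot g := by
  rintro x ⟨k, -, h1⟩
  exact mem_sUnion.mpr ⟨_, min_pre hg hA k, h1⟩

/-- Counts on the union. -/
theorem cnt_orb {g f : X ≃ₜ X} {N : ℕ} (hg : g = iterHomeo f N) {A : Set X} {α : ℝ}
    (hα : ∀ s > 0, ∃ C > 0, ∀ n : ℕ, cnt g s n A ≤ C * Real.exp (n * α)) :
    ∀ s > 0, ∃ C > 0, ∀ n : ℕ, cnt g s n (Orb f N A) ≤ C * Real.exp (n * α) := by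
  classical
  intro s hs
  obtain ⟨s', hs', hu⟩ := uc f.symm f.symm.continuous N hs
  obtain ⟨C, hC, h1⟩ := hα (s' / 2) (half_pos hs')
  have hcomm : ∀ k j x, g^[j] (f^[k] x) = f^[k] (g^[j] x) := by
    intro k j x
    have := iter_comm (g := g) (φ := iterHomeo f k) (fun x => ith_comm hg k x) j x
    exact this.symm
  have h2 : ∀ k ∈ Finset.range N, ∀ n : ℕ, cnt g s n {x | f^[k] x ∈ A} ≤
      C * Real.exp (n * α) := by
    intro k hk n
    rw [Finset.mem_range] at hk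
    refine le_trans (cnt_le fun F hF hsep => ?_) (h1 n)
    rw [← Finset.card_image_of_injective _ (f.injective.iterate k)]
    refine le_cnt (half_pos hs') ?_ ?_
    · rw [Finset.coe_image]
      rintro _ ⟨y, hy, rfl⟩
      exact hF hy
    · intro a ha b hb hab
      obtain ⟨y, hy, rfl⟩ := Finset.mem_image.mp ha
      obtain ⟨z, hz, rfl⟩ := Finset.mem_image.mp hb
      obtain ⟨j, hj, h3⟩ := hsep y hy z hz fun e => hab (by rw [e])
      refine ⟨j, hj, ?_⟩
      by_contra hcon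
      push Not at hcon
      rw [hcomm, hcomm] at hcon
      have h4 := hu k hk.le _ _ (hcon.trans_lt (by linarith))
      rw [iterL, iterL] at h4
      linarith
  refine ⟨(N + 1) * C, by positivity, fun n => ?_⟩
  have h3 : Orb f N A ⊆ ⋃ k ∈ Finset.range N, {x | f^[k] x ∈ A} := by
    rintro x ⟨k, hk, h3⟩
    exact mem_iUnion₂.mpr ⟨k, Finset.mem_range.mpr hk, h3⟩
  calc cnt g s n (Orb f N A) ≤ cnt g s n (⋃ k ∈ Finset.range N, {x | f^[k] x ∈ A}) :=
        cnt_mono hs h3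
    _ ≤ ∑ k ∈ Finset.range N, cnt g s n {x | f^[k] x ∈ A} :=
        lam_cover (B := 0) zero_bd hs n _ _
    _ ≤ ∑ k ∈ Finset.range N, C * Real.exp (n * α) := Finset.sum_le_sum fun k hk => h2 k hk n
    _ = N * (C * Real.exp (n * α)) := by rw [Finset.sum_const, nsmul_eq_mul, Finset.card_range]
    _ ≤ (N + 1) * (C * Real.exp (n * α)) := by
      apply mul_le_mul_of_nonneg_right (by linarith)
      positivity
    _ = _ := by ring

/-- The clipping. -/
noncomputable def cl (a : ℝ) : ℝ := max 0 (min 1 (2 * a))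

theorem cl_nonneg (a : ℝ) : 0 ≤ cl a := le_max_left _ _

theorem cl_le (a : ℝ) : cl a ≤ 1 := max_le zero_le_one (min_le_left _ _)

theorem cl_zero : cl 0 = 0 := by simp [cl]

theorem cl_one {a : ℝ} (h : 1 / 2 ≤ a) : cl a = 1 := by
  unfold cl
  rw [min_eq_left (by linarith), max_eq_right zero_le_one]

theorem cl_cont : Continuous cl :=
  continuous_const.max (continuous_const.min (continuous_const.mul continuous_id))

theorem cl_lip (a b : ℝ) : |cl a - cl b| ≤ 2 * |a - b| := by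
  unfold cl
  have h1 : |max 0 (min 1 (2 * a)) - max 0 (min 1 (2 * b))| ≤ |min 1 (2 * a) - min 1 (2 * b)| := by
    simpa using abs_max_sub_max_le_max 0 (min 1 (2 * a)) 0 (min 1 (2 * b))
  have h2 : |min 1 (2 * a) - min 1 (2 * b)| ≤ |2 * a - 2 * b| := by
    simpa using abs_min_sub_min_le_max 1 (2 * a) 1 (2 * b)
  have h3 : |2 * a - 2 * b| = 2 * |a - b| := by
    rw [← mul_sub, abs_mul, abs_two]
  linarith

/-- The data attached to an attractor. -/
theorem side [Nonempty X] {g f : X ≃ₜ X} {c : ℝ} (h : LP g c) {N : ℕ} (hN : 1 ≤ N)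
    (hg : g = iterHomeo f N) {A : Set X} (hA : MinAtt g A) (hT : Tot g ≠ univ) {p : X}
    (hp : g p = p) (hpA : p ∈ A) :
    ∃ (χ : X → ℝ) (K : Set X) (α : ℝ), Continuous χ ∧ (∃ e > 0, ∃ V, Bow f χ e V) ∧
      (∀ x, 0 ≤ χ x) ∧ (∀ x, χ x ≤ 1) ∧ (∀ x ∈ Orb f N A, χ x = 0) ∧
      (∀ x ∉ Bas g (Orb f N A), χ x = 1) ∧ IsCompact K ∧ K ⊆ Bas g (Orb f N A) ∧
      (∀ x ∉ K, ∀ i < N, χ (f^[i] x) = 1 ∧ χ (f.symm^[i] x) = 1) ∧
      (∀ s > 0, ∃ C > 0, ∀ n : ℕ, cnt g s n (Orb f N A) ≤ C * Real.exp (n * α)) ∧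
      ∀ u > 0, 2 * u ≤ c → ∃ C > 0, ∀ n : ℕ, Real.exp (n * α) ≤ C * cnt g u n (Wu g u p) := by
  have hc := h.c_pos
  obtain ⟨u, hu, huc⟩ : ∃ u > 0, 16 * u ≤ c := ⟨c / 16, by positivity, by linarith⟩
  have hAt := orb_att hN hg hA
  have hAi := orb_inv hN hg hA.1.inv
  have hne : Orb f N A ≠ univ := fun e => hT (eq_univ_of_univ_subset
    (e ▸ orb_sub_tot hg hA))
  obtain ⟨χ, hχc, ⟨e, he, M, hχB⟩, hχA, hχR⟩ := bump h hN hg hAt hAi hne
  have hb0 : Bow g (fun _ => (0 : ℝ)) u 0 := fun n x y _ => by simp [birkhoffSum]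
  obtain ⟨α, C, hC, hα⟩ := pureA h hA (B := 0) zero_bd hb0 hu huc le_rfl hp hpA
  have hcomm : ∀ x, f (g x) = g (f x) := fun x => ith_comm hg 1 x
  have hbas : ∀ x, f x ∈ Bas g (Orb f N A) ↔ x ∈ Bas g (Orb f N A) := fun x =>
    bas_map hcomm hAi x
  set K₀ : Set X := {x | χ x ≤ 1 / 2} with hK₀
  have hK₀c : IsClosed K₀ := isClosed_le hχc continuous_const
  have hK₀B : K₀ ⊆ Bas g (Orb f N A) := by
    intro x hx
    by_contra hcon
    have h1 := hχR x hcon
    have h2 : χ x ≤ 1 / 2 := hx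
    rw [h1] at h2
    norm_num at h2
  set K : Set X := ⋃ i ∈ Finset.range N, ({x | f^[i] x ∈ K₀} ∪ {x | f.symm^[i] x ∈ K₀}) with hK
  have hbasS : ∀ x, f.symm x ∈ Bas g (Orb f N A) ↔ x ∈ Bas g (Orb f N A) := inv_symm hbas
  refine ⟨fun x => cl (χ x), K, α, cl_cont.comp hχc, ⟨e, he, 2 * M, ?_⟩, fun x => cl_nonneg _,
    fun x => cl_le _, fun x hx => ?_, fun x hx => ?_, ?_, ?_, ?_, ?_, fun v hv hvc => ?_⟩
  · intro n x y hxy
    unfold birkhoffSum
    rw [← Finset.sum_sub_distrib]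
    refine (Finset.abs_sum_le_sum_abs _ _).trans ?_
    calc ∑ i ∈ Finset.range n, |cl (χ (f^[i] x)) - cl (χ (f^[i] y))|
        ≤ ∑ i ∈ Finset.range n, 2 * |χ (f^[i] x) - χ (f^[i] y)| :=
          Finset.sum_le_sum fun i _ => cl_lip _ _
      _ = 2 * ∑ i ∈ Finset.range n, |χ (f^[i] x) - χ (f^[i] y)| := by rw [Finset.mul_sum]
      _ ≤ _ := by
        have := hχB n x y hxy
        linarith
  · simp only [hχA x hx, cl_zero]
  · simp only [hχR x hx]
    exact cl_one (by norm_num)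
  · refine (isClosed_biUnion_finset fun i _ => ?_).isCompact
    exact (hK₀c.preimage (f.continuous.iterate i)).union
      (hK₀c.preimage (f.symm.continuous.iterate i))
  · intro x hx
    obtain ⟨i, -, hx⟩ := mem_iUnion₂.mp hx
    rcases hx with hx | hx
    · exact (inv_iter hbas i x).mp (hK₀B hx)
    · exact (inv_iter hbasS i x).mp (hK₀B hx)
  · intro x hx i hi
    have h1 : ∀ y, y ∉ K₀ → cl (χ y) = 1 := by
      intro y hy
      apply cl_one
      by_contra hcon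
      exact hy (not_le.mp hcon).le
    constructor
    · exact h1 _ fun h2 => hx (mem_iUnion₂.mpr ⟨i, Finset.mem_range.mpr hi, Or.inl h2⟩)
    · exact h1 _ fun h2 => hx (mem_iUnion₂.mpr ⟨i, Finset.mem_range.mpr hi, Or.inr h2⟩)
  · refine cnt_orb hg fun s hs => ?_
    obtain ⟨C', hC', h1⟩ := lam_att h hA (B := 0) zero_bd hu hb0 hs hu huc le_rfl hpA
    refine ⟨C' * C, by positivity, fun n => ?_⟩
    calc cnt g s n A ≤ C' * Lam g (fun _ => 0) u n (Wu g u p) := h1 n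
      _ ≤ C' * (C * Real.exp (n * α)) := by
        have := (hα n).2
        gcongr
      _ = _ := by ring
  · obtain ⟨K', hK', h1⟩ := lam_fix h (B := 0) zero_bd hu hb0 hv hvc hu (r' := u) (by linarith) hv
    refine ⟨C * K', by positivity, fun n => ?_⟩
    calc Real.exp (n * α) ≤ C * Lam g (fun _ => 0) u n (Wu g u p) := (hα n).1
      _ ≤ C * (K' * Lam g (fun _ => 0) v n (Wu g v p)) := by
        have := h1 p hp n
        gcongr
      _ = _ := by rw [cnt]; ring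

end Pool.Agent.V7H52.PG
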