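import Pool.Agent.V7H52.PG.B3

set_option autoImplicit false
set_option linter.unusedSectionVars false

open Filter Topology Set Metric MeasureTheory

namespace Pool.Agent.V7H52.PG

open Pool.Agent.H789R2.AN Pool.Agent.Y330.G Pool.Agent.N520.T Pool.Agent.H721R2
  Pool.Agent.Y321.PJ Pool.Agent.V7H52.AG

variable {X : Type*} [MetricSpace X]

theorem bsum_eq {g : X → X} {φ : X → ℝ} {n : ℕ} {y : X} {t : ℝ}
    (h : ∀ k < n, φ (g^[k] y) = t) : birkhoffSum g φ n y = n * t := by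
  unfold birkhoffSum
  rw [Finset.sum_congr rfl (g := fun _ => t) fun k hk => h k (Finset.mem_range.mp hk),
    Finset.sum_const, Finset.card_range, nsmul_eq_mul]

/-- Periodic points in the basin belong to the attractor. -/
theorem per_bas {g : X ≃ₜ X} {A : Set X} (hA : IsClosed A) (hi : ∀ x, g x ∈ A ↔ x ∈ A) {n : ℕ}
    (hn : 1 ≤ n) {y : X} (hy : g^[n] y = y) (hyB : y ∈ Bas g A) : y ∈ A := by
  obtain ⟨z, hz, hws⟩ := hyB
  have hk : ∀ k, g^[n * k] y = y := by
    intro k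
    rw [Function.iterate_mul]
    exact fixed_iter hy k
  rw [← hA.closure_eq, Metric.mem_closure_iff]
  intro ε hε
  obtain ⟨m, hm⟩ := hws.eventually_lt hε
  refine ⟨g^[n * m] z, (inv_iter hi _ _).mpr hz, ?_⟩
  have := hm (n * m) (by nlinarith)
  rwa [hk] at this

variable [CompactSpace X]

theorem lam_lt {g : X ≃ₜ X} {φ : X → ℝ} {s t : ℝ} {n : ℕ} {L : Set X} (hs : 0 < s)
    (h : ∀ y ∈ L, ∀ k < n, φ (g^[k] y) = t) :
    Lam g φ s n L ≤ Real.exp (n * t) * cnt g s n L :=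
  lam_const hs fun y hy => bsum_eq (h y hy)

theorem lam_gt {g : X ≃ₜ X} {φ : X → ℝ} {B s t : ℝ} (hφ : ∀ x, |φ x| ≤ B) {n : ℕ} {L : Set X}
    (hs : 0 < s) (h : ∀ y ∈ L, ∀ k < n, φ (g^[k] y) = t) :
    Real.exp (n * t) * cnt g s n L ≤ Lam g φ s n L := by
  have h1 := lam_cmp (g := g) (φ := fun _ => 0) (ψ := φ) hφ hs (n := n) (L := L) (V := -(n * t))
    (fun y hy => by
      rw [bsum_eq (h y hy)]
      simp [birkhoffSum])
  rw [Real.exp_neg] at h1
  have h2 : 0 < Real.exp (n * t) := Real.exp_pos _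
  calc Real.exp (n * t) * cnt g s n L ≤ Real.exp (n * t) * ((Real.exp (n * t))⁻¹ *
        Lam g φ s n L) := by
        rw [cnt]
        gcongr
    _ = _ := by field_simp

/-- The system that is not transitive. -/
theorem nontrans [ConnectedSpace X] {g f : X ≃ₜ X} {c : ℝ} (h : LP g c) {N : ℕ} (hN : 1 ≤ N)
    (hg : g = iterHomeo f N) (hfixA : ∀ A, MinAtt g A → ∃ p ∈ A, g p = p)
    (hfixR : ∀ R, MinAtt g.symm R → ∃ p ∈ R, g.symm p = p)
    (hnt : ¬ ∀ S, IsAtt g S → S = univ) :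
    ∃ (φ : X → ℝ) (L : ℝ) (q : X) (Q A : Set X), Pot f φ ∧ g q = q ∧ MinAtt g A ∧
      (∀ (y : X) (n : ℕ), 1 ≤ n → f^[n] y = y → y ∈ Q) ∧
      (∀ s > 0, ∃ C > 0, ∀ n : ℕ,
        Lam g (fun y => birkhoffSum f φ N y) s n univ ≤ C * ((n + 1) * Real.exp (-(n * L)))) ∧
      (∀ s > 0, ∃ C > 0, ∀ n : ℕ,
        Lam g (fun y => birkhoffSum f φ N y) s n Q ≤ C * Real.exp (-(n * L))) ∧
      ∃ u₀ > 0, ∀ u > 0, u ≤ u₀ → ∃ C > 0, ∀ n : ℕ, (n + 1) * Real.exp (-(n * L)) ≤
        C * Lam g (fun y => birkhoffSum f φ N y) u n (Wu g u q) ∧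
        Real.exp (-(n * L)) ≤ C * Lam g (fun y => birkhoffSum f φ N y) u n A := by
  classical
  have hc := h.c_pos
  have hN0 : (0 : ℝ) < N := by exact_mod_cast hN
  have hgs : g.symm = iterHomeo f.symm N := by rw [hg, ith_symm]
  obtain ⟨A, R, p, q, x₀, hA, hR, hpA, hqR, hp, hq, hx1, hx2, hx3, hx4, -, -⟩ :=
    exists_pq h hfixA hfixR hnt
  have hT : Tot g ≠ univ := fun e => hnt (unique_att h e)
  have hTs : Tot g.symm ≠ univ := fun e => hnt (no_rep (g := g.symm) h.symm (unique_att h.symm e))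
  obtain ⟨χ₁, K₁, α, hc₁, ⟨e₁, he₁, V₁, hV₁⟩, h₁0, h₁1, h₁A, h₁B, hK₁, hK₁B, h₁K, hcα, hlα⟩ :=
    side h hN hg hA hT hp hpA
  obtain ⟨χ₂, K₂, β, hc₂, ⟨e₂, he₂, V₂, hV₂⟩, h₂0, h₂1, h₂A, h₂B, hK₂, hK₂B, h₂K, hcβ, hlβ⟩ :=
    side h.symm hN hgs hR hTs (fixed_symm hq) hqR
  have hV₂' : Bow f χ₂ e₂ V₂ := hV₂.symm
  set 𝒜 := Orb f N A with h𝒜
  set ℛ := Orb f.symm N R with hℛ
  have hAt : IsAtt g 𝒜 := orb_att hN hg hA
  have hRt : IsAtt g.symm ℛ := orb_att hN hgs hR
  have hAi : ∀ x, f x ∈ 𝒜 ↔ x ∈ 𝒜 := orb_inv hN hg hA.1.inv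
  have hRi : ∀ x, f.symm x ∈ ℛ ↔ x ∈ ℛ := orb_inv hN hgs hR.1.inv
  have hRi' : ∀ x, f x ∈ ℛ ↔ x ∈ ℛ := fun x => by
    have := hRi (f x)
    rw [f.symm_apply_apply] at this
    exact this.symm
  have hdisj : ∀ x ∈ 𝒜, x ∉ ℛ := by
    rintro x ⟨k, hk, h1⟩ ⟨l, hl, h2⟩
    have hne : {x | f^[k] x ∈ A} ≠ univ := by
      intro e
      apply hT
      apply eq_univ_of_univ_subset
      rw [← e]
      intro y hy
      exact mem_sUnion.mpr ⟨_, min_pre hg hA k, hy⟩
    exact disj h (min_pre hg hA k) (min_pre hgs hR l) hne h1 h2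
  have hAR : ∀ x ∈ 𝒜, x ∉ Bas g.symm ℛ := by
    rintro x hx ⟨z, hz, hws⟩
    exact hdisj z (hAt.sat x hx z hws) hz
  have hRA : ∀ x ∈ ℛ, x ∉ Bas g 𝒜 := by
    rintro x hx ⟨z, hz, hws⟩
    exact hdisj z hz (hRt.sat x hx z hws)
  -- the bound of the growth
  obtain ⟨H, hH⟩ := cnt_univ h
  set L : ℝ := max (max (-α) (-β)) (H - α - β + 1) with hL
  have hL1 : 0 ≤ α + L := by
    have : -α ≤ L := (le_max_left _ _).trans (le_max_left _ _)
    linarith
  have hL2 : 0 ≤ β + L := by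
    have : -β ≤ L := (le_max_right _ _).trans (le_max_left _ _)
    linarith
  have hL3 : H - α - β + 1 ≤ L := le_max_right _ _
  -- the potential
  set t₁ : ℝ := (β + L) / N with ht₁
  set t₂ : ℝ := (α + L) / N with ht₂
  have ht₁0 : 0 ≤ t₁ := by positivity
  have ht₂0 : 0 ≤ t₂ := by positivity
  set φ : X → ℝ := fun x => -(t₁ * χ₁ x + t₂ * χ₂ x) with hφ
  have hφc : Continuous φ := ((continuous_const.mul hc₁).add (continuous_const.mul hc₂)).neg
  have hbow : Bow f φ (min e₁ e₂) (t₁ * V₁ + t₂ * V₂) := by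
    intro n x y hxy
    have h1 := hV₁ n x y fun k hk => (hxy k hk).trans (min_le_left _ _)
    have h2 := hV₂' n x y fun k hk => (hxy k hk).trans (min_le_right _ _)
    have h3 : ∀ x, birkhoffSum f φ n x = -(t₁ * birkhoffSum f χ₁ n x +
        t₂ * birkhoffSum f χ₂ n x) := by
      intro x
      unfold birkhoffSum
      rw [Finset.mul_sum, Finset.mul_sum, ← Finset.sum_add_distrib, ← Finset.sum_neg_distrib]
    rw [h3, h3]
    rw [abs_le] at h1 h2 ⊢
    constructor <;> nlinarith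
  have hpot : Pot f φ := ⟨hφc, min e₁ e₂, lt_min he₁ he₂, _, hbow⟩
  set a : X → ℝ := fun x => (birkhoffSum f χ₁ N x) / N with ha
  set b : X → ℝ := fun x => (birkhoffSum f χ₂ N x) / N with hb
  set Φ : X → ℝ := fun y => birkhoffSum f φ N y with hΦ
  have hΦab : ∀ x, Φ x = -((β + L) * a x + (α + L) * b x) := by
    intro x
    have h3 : Φ x = -(t₁ * birkhoffSum f χ₁ N x + t₂ * birkhoffSum f χ₂ N x) := by
      rw [hΦ]
      unfold birkhoffSum
      simp only
      rw [Finset.mul_sum, Finset.mul_sum, ← Finset.sum_add_distrib, ← Finset.sum_neg_distrib]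
    rw [h3, ha, hb, ht₁, ht₂]
    simp only
    ring
  have hone : ∀ {χ : X → ℝ} {x : X}, (∀ i < N, χ (f^[i] x) = 1) →
      (birkhoffSum f χ N x) / N = 1 := by
    intro χ x h1
    rw [bsum_eq h1]
    field_simp
  have hzero : ∀ {χ : X → ℝ} {x : X}, (∀ i < N, χ (f^[i] x) = 0) →
      (birkhoffSum f χ N x) / N = 0 := by
    intro χ x h1
    rw [bsum_eq h1]
    simp
  have ha0 : ∀ x, 0 ≤ a x := fun x => div_nonneg (Finset.sum_nonneg fun _ _ => h₁0 _) hN0.le
  have hb0 : ∀ x, 0 ≤ b x := fun x => div_nonneg (Finset.sum_nonneg fun _ _ => h₂0 _) hN0.le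
  have ha1 : ∀ x ∉ K₁, a x = 1 := fun x hx => hone fun i hi => (h₁K x hx i hi).1
  have hb1 : ∀ x ∉ K₂, b x = 1 := fun x hx => hone fun i hi => (h₂K x hx i hi).2
  have hAa : ∀ x ∈ 𝒜, a x = 0 := fun x hx => hzero fun i _ => h₁A _ ((inv_iter hAi i x).mpr hx)
  have hRb : ∀ x ∈ ℛ, b x = 0 := fun x hx => hzero fun i _ => h₂A _ ((inv_iter hRi' i x).mpr hx)
  have hcomm : ∀ x, f (g x) = g (f x) := fun x => ith_comm hg 1 x
  have hcomms : ∀ x, f.symm (g.symm x) = g.symm (f.symm x) := fun x => ith_comm hgs 1 x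
  have hBA : ∀ x, f x ∈ Bas g 𝒜 ↔ x ∈ Bas g 𝒜 := fun x => bas_map hcomm hAi x
  have hBR : ∀ x, f x ∈ Bas g.symm ℛ ↔ x ∈ Bas g.symm ℛ := fun x => by
    have := bas_map (g := g.symm) (φ := f.symm) hcomms hRi (f x)
    rw [f.symm_apply_apply] at this
    exact this.symm
  have ha1' : ∀ x ∉ Bas g 𝒜, a x = 1 := fun x hx => hone fun i _ => h₁B _ fun h1 =>
    hx ((inv_iter hBA i x).mp h1)
  have hb1' : ∀ x ∉ Bas g.symm ℛ, b x = 1 := fun x hx => hone fun i _ => h₂B _ fun h1 =>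
    hx ((inv_iter hBR i x).mp h1)
  have hΦA : ∀ x ∈ 𝒜, Φ x = -(α + L) := fun x hx => by
    rw [hΦab, hAa x hx, hb1' x (hAR x hx)]
    ring
  have hΦR : ∀ x ∈ ℛ, Φ x = -(β + L) := fun x hx => by
    rw [hΦab, hRb x hx, ha1' x (hRA x hx)]
    ring
  -- bounds
  obtain ⟨B, hB⟩ := (isCompact_univ (X := X)).exists_bound_of_continuousOn
    (f := Φ) (continuous_bsum hφc N).continuousOn
  have hΦB : ∀ x, |Φ x| ≤ B := fun x => hB x trivial
  obtain ⟨e, he, hbowg⟩ := bow_transfer (h := Homeomorph.refl X) (f := f) (f' := f)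
    (fun _ => rfl) hN (lt_min he₁ he₂) hbow
  have hbowg' : Bow g Φ e (t₁ * V₁ + t₂ * V₂) := by rw [hg]; exact hbowg
  -- the absorbing time
  have hKR : Disjoint 𝒜 K₂ := by
    rw [Set.disjoint_left]
    exact fun x hx hx2 => hAR x hx (hK₂B hx2)
  obtain ⟨d, hd, hdist⟩ := pos_dist hAt.closed.isCompact hK₂ hKR
  obtain ⟨m₀, hm₀⟩ := absorb h hAt hK₁ hK₁B hd
  have hm : ∀ y ∈ K₁, ∀ m ≥ m₀, g^[m] y ∉ K₂ := by
    intro y hy m hm hcon
    obtain ⟨z, hz, h1⟩ := hm₀ m hm y hy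
    have h2 := h1 0
    have h3 := hdist z hz _ hcon
    simp only [Function.iterate_zero, id] at h2
    rw [dist_comm] at h2
    linarith
  set K₃ : Set X := ⋃ l ∈ Finset.range (m₀ + 1), g.symm^[l] '' (g '' K₂) with hK₃
  have hK₃c : IsCompact K₃ := (Finset.range (m₀ + 1)).isCompact_biUnion fun l _ =>
    (hK₂.image g.continuous).image (g.symm.continuous.iterate l)
  have hgR : ∀ x, g.symm x ∈ Bas g.symm ℛ ↔ x ∈ Bas g.symm ℛ := fun x =>
    bas_map (g := g.symm) (φ := g.symm) (fun _ => rfl) hRt.inv x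
  have hK₃B : K₃ ⊆ Bas g.symm ℛ := by
    intro x hx
    obtain ⟨l, -, hx⟩ := mem_iUnion₂.mp hx
    obtain ⟨_, ⟨w, hw, rfl⟩, rfl⟩ := hx
    rw [inv_iter hgR, ← hgR, g.symm_apply_apply]
    exact hK₂B hw
  have hup := decomp (g := g) (KA := K₁) (KR := K₂) (KR' := K₃) hm (fun w hw l hl =>
    mem_iUnion₂.mpr ⟨l, Finset.mem_range.mpr (by omega), g w, ⟨w, hw, rfl⟩, rfl⟩)
    (cnt_bas h hAt hcα hK₁ hK₁B) (cnt_bas h.symm hRt hcβ hK₃c hK₃B) hH hL3 hL2 hL1 hΦB hΦab
    ha0 hb0 ha1 hb1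
  have hAg : ∀ x, g x ∈ 𝒜 ↔ x ∈ 𝒜 := hAt.inv
  have hRg : ∀ x, g x ∈ ℛ ↔ x ∈ ℛ := fun x => by
    have := hRt.inv (g x)
    rw [g.symm_apply_apply] at this
    exact this.symm
  set W : Set X := (Bas g 𝒜)ᶜ ∩ (Bas g.symm ℛ)ᶜ with hW
  have hWg : ∀ x, g x ∈ W ↔ x ∈ W := by
    intro x
    have h1 : g x ∈ Bas g 𝒜 ↔ x ∈ Bas g 𝒜 := bas_map (g := g) (φ := g) (fun _ => rfl) hAg x
    have h2 : g x ∈ Bas g.symm ℛ ↔ x ∈ Bas g.symm ℛ := by
      have := hgR (g x)
      rw [g.symm_apply_apply] at this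
      exact this.symm
    rw [hW, mem_inter_iff, mem_inter_iff, mem_compl_iff, mem_compl_iff, mem_compl_iff,
      mem_compl_iff, h1, h2]
  have hΦW : ∀ x ∈ W, Φ x = -((β + L) + (α + L)) := fun x hx => by
    rw [hΦab, ha1' x hx.1, hb1' x hx.2]
    ring
  refine ⟨φ, L, q, 𝒜 ∪ ℛ ∪ W, A, hpot, hq, hA, ?_, hup, ?_, ?_⟩
  · intro y n hn hy
    have hgy : g^[n] y = y := by
      rw [hg, ith_iter, mul_comm, Function.iterate_mul]
      exact fixed_iter hy N
    have hgy' : g.symm^[n] y = y := by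
      have := iterL g n y
      rwa [hgy] at this
    by_cases h1 : y ∈ Bas g 𝒜
    · exact Or.inl (Or.inl (per_bas hAt.closed hAt.inv hn hgy h1))
    · by_cases h2 : y ∈ Bas g.symm ℛ
      · exact Or.inl (Or.inr (per_bas hRt.closed hRt.inv hn hgy' h2))
      · exact Or.inr ⟨h1, h2⟩
  · intro s hs
    obtain ⟨C₁, hC₁, h1⟩ := hcα s hs
    obtain ⟨C₂, hC₂, h2⟩ := hcβ s hs
    obtain ⟨C₃, hC₃, h3⟩ := hH s hs
    refine ⟨C₁ + C₂ + C₃, by positivity, fun n => ?_⟩
    have b1 : Lam g Φ s n 𝒜 ≤ C₁ * Real.exp (-(n * L)) := by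
      calc Lam g Φ s n 𝒜 ≤ Real.exp (n * -(α + L)) * cnt g s n 𝒜 :=
            lam_lt hs fun y hy k _ => hΦA _ ((inv_iter hAg k y).mpr hy)
        _ ≤ Real.exp (n * -(α + L)) * (C₁ * Real.exp (n * α)) := by
            have := h1 n
            gcongr
        _ = C₁ * (Real.exp (n * -(α + L)) * Real.exp (n * α)) := by ring
        _ = _ := by
            rw [← Real.exp_add]
            congr 2
            ring
    have b2 : Lam g Φ s n ℛ ≤ C₂ * Real.exp (-(n * L)) := by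
      have h4 : cnt g s n ℛ ≤ C₂ * Real.exp (n * β) := by
        refine (cnt_rev hs n ℛ).trans ((cnt_mono hs ?_).trans (h2 n))
        rintro _ ⟨y, hy, rfl⟩
        exact (inv_iter hRg n y).mpr hy
      calc Lam g Φ s n ℛ ≤ Real.exp (n * -(β + L)) * cnt g s n ℛ :=
            lam_lt hs fun y hy k _ => hΦR _ ((inv_iter hRg k y).mpr hy)
        _ ≤ Real.exp (n * -(β + L)) * (C₂ * Real.exp (n * β)) := by
            gcongr
        _ = C₂ * (Real.exp (n * -(β + L)) * Real.exp (n * β)) := by ring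
        _ = _ := by
            rw [← Real.exp_add]
            congr 2
            ring
    have b3 : Lam g Φ s n W ≤ C₃ * Real.exp (-(n * L)) := by
      calc Lam g Φ s n W ≤ Real.exp (n * -((β + L) + (α + L))) * cnt g s n W :=
            lam_lt hs fun y hy k _ => hΦW _ ((inv_iter hWg k y).mpr hy)
        _ ≤ Real.exp (n * -((β + L) + (α + L))) * (C₃ * Real.exp (n * H)) := by
            have := (cnt_mono (g := g) hs (n := n) (subset_univ W)).trans (h3 n)
            gcongr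
        _ = C₃ * (Real.exp (n * -((β + L) + (α + L))) * Real.exp (n * H)) := by ring
        _ ≤ _ := by
            rw [← Real.exp_add]
            have : (0 : ℝ) ≤ n := Nat.cast_nonneg n
            gcongr
            nlinarith
    calc Lam g Φ s n (𝒜 ∪ ℛ ∪ W) ≤ Lam g Φ s n (𝒜 ∪ ℛ) + Lam g Φ s n W :=
          lam_union_le hΦB hs n _ _
      _ ≤ (Lam g Φ s n 𝒜 + Lam g Φ s n ℛ) + Lam g Φ s n W := by
          have := lam_union_le (g := g) hΦB hs n 𝒜 ℛ
          linarith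
      _ ≤ _ := by linarith
  · refine ⟨min c e / 256, by positivity, fun u hu hule => ?_⟩
    have hmc := min_le_left c e
    have hme := min_le_right c e
    have hmp : 0 < min c e := lt_min hc he
    obtain ⟨κ, hκ, hone'⟩ := one_lower h hbowg' hΦB hp hq hR hqR hx1 hx2 hx3 hu (by linarith)
      (by linarith)
    obtain ⟨C₁, hC₁, h1⟩ := hlα u hu (by linarith)
    obtain ⟨C₂, hC₂, h2⟩ := hlβ u hu (by linarith)
    have hpA' : p ∈ 𝒜 := ⟨0, by omega, hpA⟩
    have hqR' : q ∈ ℛ := ⟨0, by omega, hqR⟩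
    have hWuA : ∀ y ∈ Wu g u p, y ∈ 𝒜 := fun y hy =>
      hAt.sat p hpA' y (WS.of_SR (h.cU _ _ (SR.mono hy (by linarith))))
    have hWuR : ∀ y ∈ Wu g.symm u q, y ∈ ℛ := fun y hy =>
      hRt.sat q hqR' y (WS.of_SR (h.cS _ _ (SR.mono hy (by linarith))))
    have l1 : ∀ n : ℕ, Real.exp (-(n * L)) ≤ C₁ * Lam g Φ u n (Wu g u p) := by
      intro n
      calc Real.exp (-(n * L)) = Real.exp (n * -(α + L)) * Real.exp (n * α) := by
            rw [← Real.exp_add]
            congr 1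
            ring
        _ ≤ Real.exp (n * -(α + L)) * (C₁ * cnt g u n (Wu g u p)) := by
            have := h1 n
            gcongr
        _ = C₁ * (Real.exp (n * -(α + L)) * cnt g u n (Wu g u p)) := by ring
        _ ≤ _ := by
            have := lam_gt (g := g) hΦB hu (n := n) (L := Wu g u p) (t := -(α + L))
              fun y hy k _ => hΦA _ ((inv_iter hAg k y).mpr (hWuA y hy))
            gcongr
    have l2 : ∀ n : ℕ, Real.exp (-(n * L)) ≤ C₂ * Lam g.symm Φ u n (Wu g.symm u q) := by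
      intro n
      calc Real.exp (-(n * L)) = Real.exp (n * -(β + L)) * Real.exp (n * β) := by
            rw [← Real.exp_add]
            congr 1
            ring
        _ ≤ Real.exp (n * -(β + L)) * (C₂ * cnt g.symm u n (Wu g.symm u q)) := by
            have := h2 n
            gcongr
        _ = C₂ * (Real.exp (n * -(β + L)) * cnt g.symm u n (Wu g.symm u q)) := by ring
        _ ≤ _ := by
            have := lam_gt (g := g.symm) hΦB hu (n := n) (L := Wu g.symm u q) (t := -(β + L))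
              fun y hy k _ => hΦR _ ((inv_iter hRt.inv k y).mpr (hWuR y hy))
            gcongr
    refine ⟨C₁ * C₂ / κ + C₁, by positivity, fun m => ⟨?_, ?_⟩⟩
    swap
    · have h7 : Lam g Φ u m (Wu g u p) ≤ Lam g Φ u m A := lam_mono hΦB hu fun y hy =>
        hA.1.sat p hpA y (WS.of_SR (h.cU _ _ (SR.mono hy (by linarith))))
      have h8 := lam_nonneg (g := g) hΦB hu m A
      calc Real.exp (-(m * L)) ≤ C₁ * Lam g Φ u m (Wu g u p) := l1 m
        _ ≤ C₁ * Lam g Φ u m A := by gcongr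
        _ ≤ (C₁ * C₂ / κ + C₁) * Lam g Φ u m A := by
          apply mul_le_mul_of_nonneg_right _ h8
          have : 0 < C₁ * C₂ / κ := by positivity
          linarith
    have h5 := hone' m
    have h6 : (m + 1) * Real.exp (-(m * L)) ≤ C₁ * C₂ * ∑ n ∈ Finset.range (m + 1),
        Lam g.symm Φ u n (Wu g.symm u q) * Lam g Φ u (m - n) (Wu g u p) := by
      calc (m + 1) * Real.exp (-(m * L)) = ∑ n ∈ Finset.range (m + 1), Real.exp (-(m * L)) := by
            rw [Finset.sum_const, Finset.card_range, nsmul_eq_mul]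
            push_cast
            ring
        _ ≤ ∑ n ∈ Finset.range (m + 1), C₁ * C₂ * (Lam g.symm Φ u n (Wu g.symm u q) *
              Lam g Φ u (m - n) (Wu g u p)) := by
            refine Finset.sum_le_sum fun n hn => ?_
            rw [Finset.mem_range] at hn
            have e1 : ((m - n : ℕ) : ℝ) = (m : ℝ) - n := by
              push_cast [Nat.lt_succ_iff.mp hn]
              ring
            calc Real.exp (-(m * L)) = Real.exp (-(n * L)) * Real.exp (-((m - n : ℕ) * L)) := by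
                  rw [← Real.exp_add, e1]
                  congr 1
                  ring
              _ ≤ (C₂ * Lam g.symm Φ u n (Wu g.symm u q)) *
                    (C₁ * Lam g Φ u (m - n) (Wu g u p)) := by
                  have p1 := lam_nonneg (g := g.symm) hΦB hu n (Wu g.symm u q)
                  exact mul_le_mul (l2 n) (l1 (m - n)) (Real.exp_pos _).le (by positivity)
              _ = _ := by ring
        _ = _ := by rw [Finset.mul_sum]
    have h8 := lam_nonneg (g := g) hΦB hu m (Wu g u q)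
    calc (m + 1) * Real.exp (-(m * L)) ≤ C₁ * C₂ * ∑ n ∈ Finset.range (m + 1),
          Lam g.symm Φ u n (Wu g.symm u q) * Lam g Φ u (m - n) (Wu g u p) := h6
      _ = C₁ * C₂ / κ * (κ * ∑ n ∈ Finset.range (m + 1),
          Lam g.symm Φ u n (Wu g.symm u q) * Lam g Φ u (m - n) (Wu g u p)) := by field_simp
      _ ≤ C₁ * C₂ / κ * Lam g Φ u m (Wu g u q) := by gcongr
      _ ≤ _ := by
          apply mul_le_mul_of_nonneg_right _ h8
          linarith

end Pool.Agent.V7H52.PG
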