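import Pool.Agent.V7H52.PG.B4

set_option autoImplicit false
set_option linter.unusedSectionVars false

open Filter Topology Set Metric MeasureTheory

namespace Pool.Agent.V7H52.PG

open Pool.Agent.H789R2.AN Pool.Agent.Y330.G Pool.Agent.N520.T Pool.Agent.H721R2
  Pool.Agent.Y321.PJ Pool.Agent.V7H52.AG

variable {X : Type*} [MetricSpace X]

/-- Birkhoff sums of points that are close except near the ends. -/
theorem bow_ends {g : X ≃ₜ X} {φ : X → ℝ} {B e V : ℝ} (hφ : ∀ x, |φ x| ≤ B) (hB : Bow g φ e V)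
    (hV : 0 ≤ V) {j n : ℕ} {x y : X} (h : ∀ i, j ≤ i → i + j ≤ n → dist (g^[i] x) (g^[i] y) ≤ e) :
    |birkhoffSum g φ n x - birkhoffSum g φ n y| ≤ V + 4 * j * B := by
  have hB0 : 0 ≤ B := (abs_nonneg _).trans (hφ x)
  have hb : ∀ (k : ℕ) (x y : X), |birkhoffSum g φ k x - birkhoffSum g φ k y| ≤ 2 * k * B := by
    intro k x y
    have h1 := abs_le.mp (bsum_bound g hφ k x)
    have h2 := abs_le.mp (bsum_bound g hφ k y)
    rw [abs_le]
    constructor <;> linarith
  rcases Nat.lt_or_ge n (2 * j) with h1 | h1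
  · have h2 := hb n x y
    have h3 : (n : ℝ) ≤ 2 * j := by exact_mod_cast h1.le
    have h4 : 2 * (n : ℝ) * B ≤ 4 * j * B := by
      apply mul_le_mul_of_nonneg_right _ hB0
      linarith
    linarith
  · obtain ⟨m, rfl⟩ : ∃ m, n = j + (m + j) := ⟨n - 2 * j, by omega⟩
    rw [birkhoffSum_add, birkhoffSum_add, birkhoffSum_add, birkhoffSum_add]
    have h2 := hb j x y
    have h3 := hb j (g^[m] (g^[j] x)) (g^[m] (g^[j] y))
    have h4 := hB m (g^[j] x) (g^[j] y) fun k hk => by
      rw [← Function.iterate_add_apply, ← Function.iterate_add_apply]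
      exact h _ (by omega) (by omega)
    rw [abs_le] at h2 h3 h4 ⊢
    constructor <;> linarith

variable [CompactSpace X]

/-- The number of separated points that are close to each other except near the ends. -/
theorem ends_bdd (g : X ≃ₜ X) {s : ℝ} (hs : 0 < s) (j : ℕ) : ∃ K : ℕ, ∀ (n : ℕ) (G : Finset X),
    (∀ y ∈ G, ∀ y' ∈ G, ∀ i, j ≤ i → i + j ≤ n → dist (g^[i] y) (g^[i] y') ≤ s) →
      Sep g s n G → G.card ≤ K := by
  classical
  obtain ⟨η₁, hη₁, hu1⟩ := uc g g.continuous j hs
  obtain ⟨η₂, hη₂, hu2⟩ := uc g.symm g.symm.continuous j hs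
  obtain ⟨K, -, hK⟩ := net (X := X × X) (lt_min hη₁ hη₂)
  refine ⟨K, fun n G hG hsep => ?_⟩
  have hinj : Function.Injective fun y : X => (y, g^[n] y) := fun a b hab => (Prod.ext_iff.mp hab).1
  rw [← Finset.card_image_of_injective _ hinj]
  apply hK
  intro a ha b hb hab
  obtain ⟨y, hy, rfl⟩ := Finset.mem_image.mp ha
  obtain ⟨y', hy', rfl⟩ := Finset.mem_image.mp hb
  by_contra hcon
  push Not at hcon
  rw [Prod.dist_eq, max_lt_iff] at hcon
  obtain ⟨hc1, hc2⟩ := hcon
  simp only at hc1 hc2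
  obtain ⟨k, hk, h3⟩ := hsep y hy y' hy' fun e => hab (by rw [e])
  by_cases h4 : k ≤ j
  · have := hu1 k h4 _ _ (hc1.trans_le (min_le_left _ _))
    linarith
  · by_cases h5 : n - k ≤ j
    · have := hu2 (n - k) h5 _ _ (hc2.trans_le (min_le_right _ _))
      rw [bk g (by omega), bk g (by omega)] at this
      have e : n - (n - k) = k := by omega
      rw [e] at this
      linarith
    · have := hG y hy y' hy' k (by omega) (by omega)
      linarith

/-- Separated sets are bounded by periodic points. -/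
theorem per_sum {E : Type*} [NormedAddCommGroup E] [NormedSpace ℝ E] (S : HypSys X E) {c : ℝ}
    (h : LP S.g c) {A : Set X} (hA : MinAtt S.g A) {φ : X → ℝ} {B e V : ℝ} (hφ : ∀ x, |φ x| ≤ B)
    (he : 0 < e) (hB : Bow S.g φ e V) {s : ℝ} (hs : 0 < s) : ∃ (K : ℕ) (C : ℝ), 0 < C ∧
      ∀ (n : ℕ) (F : Finset X), (F : Set X) ⊆ A → Sep S.g s n F → ∃ G : ℕ → Finset X,
        (∀ m ≤ K, ∀ p ∈ G m, 1 ≤ n + m ∧ S.g^[n + m] p = p) ∧
        ps S.g φ n F ≤ C * ∑ m ∈ Finset.range (K + 1), ps S.g φ (n + m) (G m) := by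
  classical
  have hc := h.c_pos
  obtain ⟨K, hK⟩ := closing S h hA
  have hτ : 0 < min (s / 2) e / 2 := by positivity
  obtain ⟨j, hj⟩ := pw (c := c) hτ
  obtain ⟨K₁, hK₁⟩ := ends_bdd S.g hs j
  have hch : ∀ (n : ℕ) (x : X), ∃ r : ℕ × X, r.1 ≤ K ∧ (x ∈ A → 1 ≤ n + r.1 ∧
      S.g^[n + r.1] r.2 = r.2 ∧
      ∀ i ≤ n, dist (S.g^[i] x) (S.g^[i] r.2) ≤ c * (1 / 2) ^ i + c * (1 / 2) ^ (n - i)) := by
    intro n x
    by_cases hx : x ∈ A
    · obtain ⟨m, hm, p, -, h1, h2, h3⟩ := hK x hx n
      exact ⟨(m, p), hm, fun _ => ⟨h1, h2, h3⟩⟩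
    · exact ⟨(0, x), Nat.zero_le _, fun h => absurd h hx⟩
  choose π hπ using hch
  have hclose : ∀ (n : ℕ) (x : X), x ∈ A → ∀ (i : ℕ), j ≤ i → i + j ≤ n →
      dist (S.g^[i] x) (S.g^[i] (π n x).2) ≤ min (s / 2) e := by
    intro n x hx i h1 h2
    have h3 := ((hπ n x).2 hx).2.2 i (by omega)
    have h4 := (pw_anti hc h1).trans hj
    have h5 := (pw_anti hc (show j ≤ n - i by omega)).trans hj
    linarith
  have hV0 : 0 ≤ V := by
    obtain ⟨x, -⟩ := hA.1.nonempty
    have := hB 0 x x (fun k hk => absurd hk (by omega))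
    simpa using this
  set C₀ : ℝ := Real.exp (V + 4 * j * B + K * B) with hC₀
  refine ⟨K, (K₁ + 1) * C₀, by positivity, fun n F hFA hsep => ?_⟩
  have hB0 : 0 ≤ B := by
    obtain ⟨x, -⟩ := hA.1.nonempty
    exact (abs_nonneg _).trans (hφ x)
  refine ⟨fun m => (F.filter fun y => (π n y).1 = m).image fun y => (π n y).2, ?_, ?_⟩
  · intro m hm p hp
    obtain ⟨y, hy, rfl⟩ := Finset.mem_image.mp hp
    obtain ⟨hy', rfl⟩ := Finset.mem_filter.mp hy
    exact ⟨((hπ n y).2 (hFA hy')).1, ((hπ n y).2 (hFA hy')).2.1⟩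
  · have h1 : ∀ y ∈ F, Real.exp (birkhoffSum S.g φ n y) ≤
        C₀ * Real.exp (birkhoffSum S.g φ (n + (π n y).1) (π n y).2) := by
      intro y hy
      rw [hC₀, ← Real.exp_add]
      apply Real.exp_le_exp.mpr
      have h2 := (abs_le.mp (bow_ends (g := S.g) hφ hB hV0 (j := j) (n := n) (x := y)
        (y := (π n y).2) fun i hi1 hi2 => (hclose n y (hFA hy) i hi1 hi2).trans (min_le_right _ _))).2
      rw [birkhoffSum_add]
      have h3 := (abs_le.mp (bsum_bound S.g hφ (π n y).1 (S.g^[n] (π n y).2))).1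
      have h4 : ((π n y).1 : ℝ) * B ≤ K * B := by
        have : ((π n y).1 : ℝ) ≤ K := by exact_mod_cast (hπ n y).1
        exact mul_le_mul_of_nonneg_right this hB0
      linarith
    have h2 : ∀ m ∈ Finset.range (K + 1),
        ∑ y ∈ F.filter (fun y => (π n y).1 = m), Real.exp (birkhoffSum S.g φ n y) ≤
          (K₁ + 1) * C₀ * ps S.g φ (n + m) ((F.filter fun y => (π n y).1 = m).image
            fun y => (π n y).2) := by
      intro m hm
      unfold ps
      rw [← Finset.sum_fiberwise_of_maps_to (g := fun y => (π n y).2)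
        (t := (F.filter fun y => (π n y).1 = m).image fun y => (π n y).2)
        (fun y hy => Finset.mem_image_of_mem _ hy), Finset.mul_sum]
      refine Finset.sum_le_sum fun p hp => ?_
      have h3 : ∀ y ∈ (F.filter fun y => (π n y).1 = m).filter (fun y => (π n y).2 = p),
          Real.exp (birkhoffSum S.g φ n y) ≤ C₀ * Real.exp (birkhoffSum S.g φ (n + m) p) := by
        intro y hy
        obtain ⟨hy, hyp⟩ := Finset.mem_filter.mp hy
        obtain ⟨hy, hym⟩ := Finset.mem_filter.mp hy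
        have := h1 y hy
        rwa [hyp, hym] at this
      have h4 : ((F.filter fun y => (π n y).1 = m).filter (fun y => (π n y).2 = p)).card ≤ K₁ := by
        refine hK₁ n _ (fun y hy y' hy' i hi1 hi2 => ?_)
          (hsep.subset ((Finset.filter_subset _ _).trans (Finset.filter_subset _ _)))
        have e1 := (Finset.mem_filter.mp hy).2
        have e2 := (Finset.mem_filter.mp hy').2
        have f1 := (Finset.mem_filter.mp (Finset.mem_filter.mp hy).1).1
        have f2 := (Finset.mem_filter.mp (Finset.mem_filter.mp hy').1).1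
        have d1 := (hclose n y (hFA f1) i hi1 hi2).trans (min_le_left _ _)
        have d2 := (hclose n y' (hFA f2) i hi1 hi2).trans (min_le_left _ _)
        rw [e1] at d1
        rw [e2] at d2
        have := dist_triangle_right (S.g^[i] y) (S.g^[i] y') (S.g^[i] p)
        linarith
      have h5 : (((F.filter fun y => (π n y).1 = m).filter
          (fun y => (π n y).2 = p)).card : ℝ) ≤ K₁ + 1 := by
        have : (((F.filter fun y => (π n y).1 = m).filter
          (fun y => (π n y).2 = p)).card : ℝ) ≤ K₁ := by exact_mod_cast h4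
        linarith
      calc ∑ y ∈ (F.filter fun y => (π n y).1 = m).filter (fun y => (π n y).2 = p),
            Real.exp (birkhoffSum S.g φ n y)
          ≤ ∑ y ∈ (F.filter fun y => (π n y).1 = m).filter (fun y => (π n y).2 = p),
            C₀ * Real.exp (birkhoffSum S.g φ (n + m) p) := Finset.sum_le_sum h3
        _ = ((F.filter fun y => (π n y).1 = m).filter (fun y => (π n y).2 = p)).card *
            (C₀ * Real.exp (birkhoffSum S.g φ (n + m) p)) := by
            rw [Finset.sum_const, nsmul_eq_mul]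
        _ ≤ (K₁ + 1) * (C₀ * Real.exp (birkhoffSum S.g φ (n + m) p)) := by gcongr
        _ = _ := by ring
    calc ps S.g φ n F = ∑ m ∈ Finset.range (K + 1),
          ∑ y ∈ F.filter (fun y => (π n y).1 = m), Real.exp (birkhoffSum S.g φ n y) := by
          unfold ps
          rw [Finset.sum_fiberwise_of_maps_to]
          intro y _
          rw [Finset.mem_range]
          have := (hπ n y).1
          omega
      _ ≤ ∑ m ∈ Finset.range (K + 1), (K₁ + 1) * C₀ * ps S.g φ (n + m)
          ((F.filter fun y => (π n y).1 = m).image fun y => (π n y).2) := Finset.sum_le_sum h2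
      _ = _ := by rw [Finset.mul_sum]

end Pool.Agent.V7H52.PG
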