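import Pool.Agent.V7H52.PG.B5

set_option autoImplicit false
set_option linter.unusedSectionVars false

open Filter Topology Set Metric MeasureTheory

namespace Pool.Agent.V7H52.PG

open Pool.Agent.H789R2.AN Pool.Agent.Y330.G Pool.Agent.N520.T Pool.Agent.H721R2
  Pool.Agent.Y321.PJ Pool.Agent.V7H52.AG

variable {X Y : Type*} [MetricSpace X] [MetricSpace Y] [CompactSpace X] [CompactSpace Y]

/-- The sum over the fixed points of an iterate. -/
noncomputable def PZ (f : X ≃ₜ X) (φ : X → ℝ) (n : ℕ) : ℝ :=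
  ∑' x : {x : X // f^[n] x = x}, Real.exp (birkhoffSum f φ n x)

theorem PZ_nonneg (f : X ≃ₜ X) (φ : X → ℝ) (n : ℕ) : 0 ≤ PZ f φ n :=
  tsum_nonneg fun _ => (Real.exp_pos _).le

theorem PZ_eq {f : X ≃ₜ X} {φ : X → ℝ} {n : ℕ} {T : Finset X}
    (hT : (T : Set X) = {x | f^[n] x = x}) : PZ f φ n = ps f φ n T := by
  have h1 : PZ f φ n = ∑' x : ({x | f^[n] x = x} : Set X), Real.exp (birkhoffSum f φ n x) := rfl
  rw [h1, ← hT]
  exact Finset.tsum_subtype' T fun x => Real.exp (birkhoffSum f φ n x)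

theorem back_per (f : X ≃ₜ X) {n : ℕ} (hn : 1 ≤ n) {x : X} (hx : f^[n] x = x) (m : ℕ) :
    f.symm^[m] x = f^[m * n - m] x := by
  apply (f.injective.iterate m)
  rw [iterR, ← Function.iterate_add_apply]
  have h1 : m ≤ m * n := Nat.le_mul_of_pos_right m (by omega)
  have e : m + (m * n - m) = n * m := by
    rw [Nat.mul_comm n m]
    omega
  rw [e, Function.iterate_mul]
  exact (fixed_iter hx m).symm

theorem per_eq {h : X ≃ₜ Y} {f : X ≃ₜ X} {f' : Y ≃ₜ Y} (hf : ∀ x, h (f x) = f' (h x)) {N : ℕ}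
    {c : ℝ} (hLP : LP (iterHomeo f' N) c) {r₁ : ℝ}
    (hr₁ : ∀ a b : X, dist a b ≤ r₁ → dist (h a) (h b) ≤ c / 4) {n : ℕ} (hn : 1 ≤ n) {x y : X}
    (hx : f^[n] x = x) (hy : f^[n] y = y) (hxy : ∀ k ≤ n, dist (f^[k] x) (f^[k] y) ≤ r₁) :
    x = y := by
  have hc := hLP.c_pos
  have hall : ∀ m, dist (f^[m] x) (f^[m] y) ≤ r₁ := by
    intro m
    have h1 : ∀ z, f^[n] z = z → f^[m] z = f^[m % n] z := by
      intro z hz
      conv_lhs => rw [← Nat.mod_add_div m n]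
      rw [Function.iterate_add_apply, Function.iterate_mul, fixed_iter hz]
    rw [h1 x hx, h1 y hy]
    exact hxy _ (Nat.mod_lt _ hn).le
  apply h.injective
  refine expans hLP (fun k => ?_) fun k => ?_
  · rw [ith_iter, ith_iter, ← conj_iter hf, ← conj_iter hf]
    exact (hr₁ _ _ (hall _)).trans (by linarith)
  · rw [ith_symm_iter, ith_symm_iter, ← conj_iter (conj_symm hf), ← conj_iter (conj_symm hf), back_per f hn hx,
      back_per f hn hy]
    exact (hr₁ _ _ (hall _)).trans (by linarith)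

/-- Periodic points are separated. -/
theorem per_sep {h : X ≃ₜ Y} {f : X ≃ₜ X} {f' : Y ≃ₜ Y} (hf : ∀ x, h (f x) = f' (h x)) {N : ℕ}
    {c : ℝ} (hLP : LP (iterHomeo f' N) c) {r₁ : ℝ}
    (hr₁ : ∀ a b : X, dist a b ≤ r₁ → dist (h a) (h b) ≤ c / 4) {n : ℕ} (hn : 1 ≤ n)
    {G : Finset X} (hG : ∀ x ∈ G, f^[n] x = x) : Sep f r₁ n G := by
  intro x hx y hy hne
  by_contra hcon
  push Not at hcon
  exact hne (per_eq hf hLP hr₁ hn (hG x hx) (hG y hy) hcon)

theorem per_fin {h : X ≃ₜ Y} {f : X ≃ₜ X} {f' : Y ≃ₜ Y} (hf : ∀ x, h (f x) = f' (h x)) {N : ℕ}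
    {c : ℝ} (hLP : LP (iterHomeo f' N) c) {r₁ : ℝ} (hr₁0 : 0 < r₁)
    (hr₁ : ∀ a b : X, dist a b ≤ r₁ → dist (h a) (h b) ≤ c / 4) {n : ℕ} (hn : 1 ≤ n) :
    {x : X | f^[n] x = x}.Finite := by
  obtain ⟨K, hK⟩ := sep_bdd f hr₁0 n
  by_contra hcon
  obtain ⟨t, ht, hcard⟩ := Set.Infinite.exists_subset_card_eq hcon (K + 1)
  have := hK t (per_sep hf hLP hr₁ hn fun x hx => ht hx)
  omega

theorem pz_le {h : X ≃ₜ Y} {f : X ≃ₜ X} {f' : Y ≃ₜ Y} (hf : ∀ x, h (f x) = f' (h x)) {N : ℕ}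
    {c : ℝ} (hLP : LP (iterHomeo f' N) c) {r₁ : ℝ} (hr₁0 : 0 < r₁)
    (hr₁ : ∀ a b : X, dist a b ≤ r₁ → dist (h a) (h b) ≤ c / 4) {n : ℕ} (hn : 1 ≤ n)
    {φ : X → ℝ} {B : ℝ} (hφ : ∀ x, |φ x| ≤ B) {L : Set X} (hL : ∀ x, f^[n] x = x → x ∈ L) :
    PZ f φ n ≤ Lam f φ r₁ n L := by
  have hfin := per_fin hf hLP hr₁0 hr₁ hn
  rw [PZ_eq (T := hfin.toFinset) hfin.coe_toFinset]
  refine le_lam hφ hr₁0 ?_ (per_sep hf hLP hr₁ hn fun x hx => ?_)
  · rw [hfin.coe_toFinset]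
    exact fun x hx => hL x hx
  · exact hfin.mem_toFinset.mp hx

theorem le_pz {f : X ≃ₜ X} {φ : X → ℝ} {n : ℕ} (hfin : {x : X | f^[n] x = x}.Finite)
    {G : Finset X} (hG : ∀ x ∈ G, f^[n] x = x) : ps f φ n G ≤ PZ f φ n := by
  rw [PZ_eq (T := hfin.toFinset) hfin.coe_toFinset]
  exact Finset.sum_le_sum_of_subset_of_nonneg (fun x hx => hfin.mem_toFinset.mpr (hG x hx))
    fun _ _ _ => (Real.exp_pos _).le

/-- The separated sets in a minimal attractor are bounded by the periodic points. -/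
theorem att_per {E : Type*} [NormedAddCommGroup E] [NormedSpace ℝ E] (S : HypSys Y E) {c : ℝ}
    (h0 : LP S.g c) {A : Set Y} (hA : MinAtt S.g A) {h : X ≃ₜ Y} {f : X ≃ₜ X} {f' : Y ≃ₜ Y}
    (hf : ∀ x, h (f x) = f' (h x)) {N : ℕ} (hN : 1 ≤ N) (hS : S.g = iterHomeo f' N)
    (hfin : ∀ n : ℕ, 1 ≤ n → {x : X | f^[n] x = x}.Finite) {φ : X → ℝ} {B : ℝ}
    (hφ : ∀ x, |φ x| ≤ B) {e V : ℝ} (he : 0 < e)
    (hB : Bow S.g (fun y => birkhoffSum f φ N (h.symm y)) e V) {s : ℝ} (hs : 0 < s) :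
    ∃ K : ℕ, 1 ≤ K ∧ ∃ C > 0, ∀ n : ℕ,
      Lam S.g (fun y => birkhoffSum f φ N (h.symm y)) s (n / N) A ≤
        C * ∑ m ∈ Finset.Icc 1 K, PZ f φ (n + m) := by
  classical
  set Φ : Y → ℝ := fun y => birkhoffSum f φ N (h.symm y) with hΦ
  have hΦB : ∀ y, |Φ y| ≤ N * B := fun y => bsum_bound f hφ N _
  obtain ⟨K, C, hC, h1⟩ := per_sum S h0 hA hΦB he hB hs
  refine ⟨N * (K + 1), Nat.mul_pos hN (by omega), Real.exp ((1 : ℕ) * (N * B)) * (C * (K + 1)),
    by positivity, fun n => ?_⟩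
  refine (lam_time (g := S.g) hΦB hs (n / N) 1 A).trans ?_
  have h2 : Lam S.g Φ s (n / N + 1) A ≤
      C * (K + 1) * ∑ m ∈ Finset.Icc 1 (N * (K + 1)), PZ f φ (n + m) := by
    refine lam_le fun F hF hsep => ?_
    obtain ⟨G, hG, h3⟩ := h1 (n / N + 1) F hF hsep
    refine h3.trans ?_
    have h4 : ∀ m ∈ Finset.range (K + 1), ps S.g Φ (n / N + 1 + m) (G m) ≤
        ∑ m ∈ Finset.Icc 1 (N * (K + 1)), PZ f φ (n + m) := by
      intro m hm
      rw [Finset.mem_range] at hm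
      have hM : 1 ≤ N * (n / N + 1 + m) := Nat.mul_pos hN (by positivity)
      have e1 : ps S.g Φ (n / N + 1 + m) (G m) =
          ps f φ (N * (n / N + 1 + m)) ((G m).image h.symm) := by
        unfold ps
        rw [Finset.sum_image (fun a _ b _ hab => h.symm.injective hab)]
        refine Finset.sum_congr rfl fun y _ => ?_
        rw [hΦ, hS, bsum_pow hf]
      rw [e1]
      have h5 : ps f φ (N * (n / N + 1 + m)) ((G m).image h.symm) ≤
          PZ f φ (N * (n / N + 1 + m)) := by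
        refine le_pz (hfin _ hM) ?_
        intro x hx
        obtain ⟨y, hy, rfl⟩ := Finset.mem_image.mp hx
        have h6 := (hG m (by omega) y hy).2
        rw [hS] at h6
        rw [← back_iter hf, h6]
      have h7 : N * (n / N) ≤ n := Nat.mul_div_le n N
      have h8 : n < N * (n / N) + N := by
        have := Nat.mod_lt n hN
        have := Nat.div_add_mod n N
        omega
      have h9 : N * (n / N + 1 + m) = N * (n / N) + N + N * m := by ring
      have h10 : N * m ≤ N * K := Nat.mul_le_mul_left _ (by omega)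
      have h11 : N * (K + 1) = N * K + N := by ring
      have h12 : n + (N * (n / N + 1 + m) - n) = N * (n / N + 1 + m) := by omega
      have h13 := Finset.single_le_sum (f := fun i => PZ f φ (n + i))
        (fun i _ => PZ_nonneg f φ (n + i)) (s := Finset.Icc 1 (N * (K + 1)))
        (a := N * (n / N + 1 + m) - n) (by
          rw [Finset.mem_Icc]
          constructor <;> omega)
      rw [h12] at h13
      exact h5.trans h13
    calc C * ∑ m ∈ Finset.range (K + 1), ps S.g Φ (n / N + 1 + m) (G m)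
        ≤ C * ∑ m ∈ Finset.range (K + 1), ∑ m ∈ Finset.Icc 1 (N * (K + 1)), PZ f φ (n + m) := by
          gcongr with m hm
          exact h4 m hm
      _ = _ := by
          rw [Finset.sum_const, Finset.card_range, nsmul_eq_mul]
          push_cast
          ring
  calc Real.exp ((1 : ℕ) * (N * B)) * Lam S.g Φ s (n / N + 1) A
      ≤ Real.exp ((1 : ℕ) * (N * B)) *
        (C * (K + 1) * ∑ m ∈ Finset.Icc 1 (N * (K + 1)), PZ f φ (n + m)) := by gcongr
    _ = _ := by ring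

end Pool.Agent.V7H52.PG
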