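import Pool.Agent.V7H52.PG.B6

set_option autoImplicit false
set_option linter.unusedSectionVars false

open Filter Topology Set Metric MeasureTheory
open scoped Manifold ContDiff

namespace Pool.Agent.V7H52.PG

open Pool.Agent.H789R2.AN Pool.Agent.Y330.G Pool.Agent.N520.T Pool.Agent.H721R2
  Pool.Agent.Y321.PJ Pool.Agent.V7H52.AG

universe w

variable {E : Type*} [NormedAddCommGroup E] [NormedSpace ℝ E] [FiniteDimensional ℝ E]

theorem main {M : Type w} [MetricSpace M] [CompactSpace M] [ConnectedSpace M]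
    [ChartedSpace E M] [IsManifold 𝓘(ℝ, E) ∞ M] (f : Diffeomorph 𝓘(ℝ, E) 𝓘(ℝ, E) M M 1)
    (Es Eu : ∀ x : M, Submodule ℝ (TangentSpace 𝓘(ℝ, E) x)) (hA : IsAnosov f Es Eu) :
    ∃ ε₀ > 0, (∀ n : ℕ, 1 ≤ n → {x : M | f^[n] x = x}.Finite) ∧
    (TopTransitive f → ∀ φ : M → ℝ, Pot f.toHomeomorph φ → ∃ P : ℝ,
      (∀ s > 0, ∃ C > 0, ∀ n : ℕ, Lam f.toHomeomorph φ s n univ ≤ C * Real.exp (n * P)) ∧
      (∀ s > 0, s ≤ ε₀ → ∃ C > 0, ∀ n : ℕ,
        Real.exp (n * P) ≤ C * Lam f.toHomeomorph φ s n univ) ∧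
      (∀ s > 0, ∃ K : ℕ, 1 ≤ K ∧ ∃ C > 0, ∀ n : ℕ,
        Lam f.toHomeomorph φ s n univ ≤ C * ∑ m ∈ Finset.Icc 1 K, PZ f.toHomeomorph φ (n + m)) ∧
      ∃ C > 0, ∀ n : ℕ, 1 ≤ n → PZ f.toHomeomorph φ n ≤ C * Real.exp (n * P)) ∧
    (¬ TopTransitive f → ∃ φ : M → ℝ, Pot f.toHomeomorph φ ∧ ∃ (P : ℝ) (q : M),
      (∃ T : ℕ, 1 ≤ T ∧ f^[T] q = q) ∧
      (∀ s > 0, ∃ C > 0, ∀ n : ℕ,
        Lam f.toHomeomorph φ s n univ ≤ C * ((n + 1) * Real.exp (n * P))) ∧
      (∀ r s : ℝ, 0 < r → r ≤ ε₀ → 0 < s → s ≤ ε₀ → ∃ C > 0, ∀ n : ℕ,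
        (n + 1) * Real.exp (n * P) ≤ C * Lam f.toHomeomorph φ s n (Wu f.toHomeomorph r q)) ∧
      (∃ K : ℕ, 1 ≤ K ∧ ∃ C > 0, ∀ n : ℕ,
        Real.exp (n * P) ≤ C * ∑ m ∈ Finset.Icc 1 K, PZ f.toHomeomorph φ (n + m)) ∧
      ∃ C > 0, ∀ n : ℕ, 1 ≤ n → PZ f.toHomeomorph φ n ≤ C * Real.exp (n * P)) := by
  obtain ⟨Y, iY, cY, hY, m, h, f', N, S, c, hf, hN, hS, hLP, hfixA, hfixR, htr⟩ := model f Es Eu hA
  set F : M ≃ₜ M := f.toHomeomorph with hF
  have hc := hLP.c_pos
  obtain ⟨r₁, hr₁0, hr₁⟩ := one_uc h (show 0 < c / 4 by linarith)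
  have hLP' : LP (iterHomeo f' N) c := by rw [← hS]; exact hLP
  have hN0 : (0 : ℝ) < N := by exact_mod_cast hN
  have hfin : ∀ n : ℕ, 1 ≤ n → {x : M | F^[n] x = x}.Finite := fun n hn =>
    per_fin hf hLP' hr₁0 hr₁ hn
  have hscale : ∀ e : ℝ, 0 < e → ∃ u > 0, 256 * u ≤ c ∧ 16 * u ≤ e := fun e he =>
    ⟨min c e / 256, by positivity, by
      have := min_le_left c e
      linarith, by
      have := min_le_right c e
      have : 0 < min c e := lt_min hc he
      linarith⟩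
  refine ⟨r₁, hr₁0, hfin, ?_, ?_⟩
  · -- the transitive case
    intro ht φ hφ
    have hatt := htr.mp ht
    have hAu : MinAtt S.g univ :=
      ⟨⟨isClosed_univ, univ_nonempty, fun _ => by simp, fun _ _ _ _ => mem_univ _⟩,
        fun B hB _ => by rw [hatt B hB]⟩
    obtain ⟨p, -, hp⟩ := hfixA univ hAu
    obtain ⟨B, e, V, V', he, hφB, -, hb₁, -, hΦB, -, -⟩ :=
      two_pots hf hN hφ hφ (fun _ _ _ _ => rfl)
    obtain ⟨u, hu, huc, hue⟩ := hscale e he
    rw [← hS] at hb₁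
    set Φ : Y → ℝ := fun y => birkhoffSum F φ N (h.symm y) with hΦ
    obtain ⟨α, C, hC, hα⟩ := pureA hLP hAu hΦB hb₁ hu (by linarith) (by linarith) hp trivial
    set A₀ := Real.exp |α| with hA₀
    have hA₀0 : 0 < A₀ := Real.exp_pos _
    have hupper : ∀ s > 0, ∃ C > 0, ∀ n : ℕ, Lam F φ s n univ ≤ C * Real.exp (n * (α / N)) := by
      intro s hs
      obtain ⟨s', hs', h1⟩ := up hf hN hφB hs
      obtain ⟨C', hC', h2⟩ := lam_att hLP hAu hΦB he hb₁ hs' hu (by linarith) (by linarith)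
        (mem_univ p)
      refine ⟨Real.exp (N * B) * (C' * (C * A₀)), by positivity, fun n => ?_⟩
      obtain ⟨x1, x2⟩ := exp_floor hN α n
      have h3 := h1 n univ
      rw [image_univ, h.surjective.range_eq, ← hS] at h3
      calc Lam F φ s n univ ≤ Real.exp (N * B) * Lam S.g Φ s' (n / N) univ := h3
        _ ≤ Real.exp (N * B) * (C' * Lam S.g Φ u (n / N) (Wu S.g u p)) := by
          have := h2 (n / N)
          gcongr
        _ ≤ Real.exp (N * B) * (C' * (C * Real.exp ((n / N : ℕ) * α))) := by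
          have := (hα (n / N)).2
          gcongr
        _ ≤ Real.exp (N * B) * (C' * (C * (A₀ * Real.exp (n * (α / N))))) := by gcongr
        _ = _ := by ring
    refine ⟨α / N, hupper, ?_, ?_, ?_⟩
    · intro s hs hsr
      have hb₁' := hb₁
      rw [hS] at hb₁'
      obtain ⟨D, hD, h1⟩ := pt_cmp hf hN hLP' hr₁ hφB he hb₁' hu (by linarith) hs hsr hs hsr
      rw [← hS] at h1
      refine ⟨A₀ * (C * D), by positivity, fun n => ?_⟩
      obtain ⟨x1, x2⟩ := exp_floor hN α n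
      have h2 := (h1 (h.symm p) (by rw [h.apply_symm_apply]; exact hp) n).2
      rw [h.apply_symm_apply] at h2
      have h3 : Lam F φ s n (Wu F s (h.symm p)) ≤ Lam F φ s n univ :=
        lam_mono hφB hs (subset_univ _)
      calc Real.exp (n * (α / N)) ≤ A₀ * Real.exp ((n / N : ℕ) * α) := x1
        _ ≤ A₀ * (C * Lam S.g Φ u (n / N) (Wu S.g u p)) := by
          have := (hα (n / N)).1
          gcongr
        _ ≤ A₀ * (C * (D * Lam F φ s n (Wu F s (h.symm p)))) := by gcongr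
        _ ≤ A₀ * (C * (D * Lam F φ s n univ)) := by gcongr
        _ = _ := by ring
    · intro s hs
      obtain ⟨s', hs', h1⟩ := up hf hN hφB hs
      obtain ⟨K, hK, C', hC', h2⟩ := att_per S hLP hAu hf hN hS hfin hφB he hb₁ hs'
      refine ⟨K, hK, Real.exp (N * B) * C', by positivity, fun n => ?_⟩
      have h3 := h1 n univ
      rw [image_univ, h.surjective.range_eq, ← hS] at h3
      calc Lam F φ s n univ ≤ Real.exp (N * B) * Lam S.g Φ s' (n / N) univ := h3
        _ ≤ Real.exp (N * B) * (C' * ∑ m ∈ Finset.Icc 1 K, PZ F φ (n + m)) := by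
          have := h2 n
          gcongr
        _ = _ := by ring
    · obtain ⟨C', hC', h1⟩ := hupper r₁ hr₁0
      refine ⟨C', hC', fun n hn => ?_⟩
      exact (pz_le hf hLP' hr₁0 hr₁ hn hφB (L := univ) fun x _ => mem_univ x).trans (h1 n)
  · -- the other case
    intro hnt
    have hnt' : ¬ ∀ A, IsAtt S.g A → A = univ := fun hc => hnt (htr.mpr hc)
    obtain ⟨φ', L, q, Q, A, hφ', hq, hAm, hQ, hup, hQup, u₀, hu₀, hlow⟩ :=
      nontrans hLP hN hS hfixA hfixR hnt'
    set φ : M → ℝ := fun x => φ' (h x) with hφd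
    have hφ : Pot F φ := pot_conj hf hφ'
    obtain ⟨B, e, V, V', he, hφB, -, hb₁, -, hΦB, -, -⟩ :=
      two_pots hf hN hφ hφ (fun _ _ _ _ => rfl)
    have hΦe : (fun y => birkhoffSum F φ N (h.symm y)) = fun y => birkhoffSum f' φ' N y := by
      funext y
      rw [hφd, bsum_conj hf, h.apply_symm_apply]
    rw [← hS] at hb₁
    rw [← hΦe] at hup hQup hlow
    set Φ : Y → ℝ := fun y => birkhoffSum F φ N (h.symm y) with hΦ
    obtain ⟨u, hu, huc, hue, huu₀⟩ : ∃ u > 0, 256 * u ≤ c ∧ 16 * u ≤ e ∧ u ≤ u₀ := by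
      obtain ⟨u, hu, h1, h2⟩ := hscale e he
      exact ⟨min u u₀, lt_min hu hu₀, by
        have := min_le_left u u₀
        linarith, by
        have := min_le_left u u₀
        linarith, min_le_right _ _⟩
    obtain ⟨C, hC, hl⟩ := hlow u hu huu₀
    set A₀ := Real.exp |(-L)| with hA₀
    have hA₀0 : 0 < A₀ := Real.exp_pos _
    have hneg : ∀ k : ℕ, Real.exp (-(k * L)) = Real.exp (k * (-L)) := fun k => by
      congr 1
      ring
    have hqper : F^[N] (h.symm q) = h.symm q := by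
      have h1 := back_iter hf N 1 q
      rw [Function.iterate_one, mul_one, ← hS, hq] at h1
      exact h1.symm
    refine ⟨φ, hφ, -L / N, h.symm q, ⟨N, hN, hqper⟩, ?_, ?_, ?_, ?_⟩
    · intro s hs
      obtain ⟨s', hs', h1⟩ := up hf hN hφB hs
      obtain ⟨C', hC', h2⟩ := hup s' hs'
      refine ⟨Real.exp (N * B) * (C' * A₀), by positivity, fun n => ?_⟩
      obtain ⟨x1, x2⟩ := exp_floor hN (-L) n
      have h3 := h1 n univ
      rw [image_univ, h.surjective.range_eq, ← hS] at h3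
      have h4 : ((n / N : ℕ) : ℝ) ≤ n := by exact_mod_cast Nat.div_le_self n N
      calc Lam F φ s n univ ≤ Real.exp (N * B) * Lam S.g Φ s' (n / N) univ := h3
        _ ≤ Real.exp (N * B) * (C' * (((n / N : ℕ) + 1) * Real.exp (-((n / N : ℕ) * L)))) := by
          have := h2 (n / N)
          gcongr
        _ ≤ Real.exp (N * B) * (C' * ((n + 1) * (A₀ * Real.exp (n * (-L / N))))) := by
          rw [hneg]
          gcongr
        _ = _ := by ring
    · intro r s hr hrε hs hsε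
      have hb₁' := hb₁
      rw [hS] at hb₁'
      obtain ⟨D, hD, h1⟩ := pt_cmp hf hN hLP' hr₁ hφB he hb₁' hu (by linarith) hr hrε hs hsε
      rw [← hS] at h1
      refine ⟨N * A₀ * (C * D), by positivity, fun n => ?_⟩
      obtain ⟨x1, x2⟩ := exp_floor hN (-L) n
      have h2 := (h1 (h.symm q) (by rw [h.apply_symm_apply]; exact hq) n).2
      rw [h.apply_symm_apply] at h2
      have h3 := (hl (n / N)).1
      rw [hneg] at h3
      have h4 : (n : ℝ) + 1 ≤ N * ((n / N : ℕ) + 1) := by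
        have h5 : n + 1 ≤ N * (n / N + 1) := by
          have := Nat.mod_lt n hN
          have := Nat.div_add_mod n N
          have : N * (n / N + 1) = N * (n / N) + N := by ring
          omega
        exact_mod_cast h5
      calc (n + 1) * Real.exp (n * (-L / N))
          ≤ (N * ((n / N : ℕ) + 1)) * (A₀ * Real.exp ((n / N : ℕ) * (-L))) := by gcongr
        _ = N * A₀ * (((n / N : ℕ) + 1) * Real.exp ((n / N : ℕ) * (-L))) := by ring
        _ ≤ N * A₀ * (C * Lam S.g Φ u (n / N) (Wu S.g u q)) := by gcongr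
        _ ≤ N * A₀ * (C * (D * Lam F φ s n (Wu F r (h.symm q)))) := by gcongr
        _ = _ := by ring
    · obtain ⟨K, hK, C', hC', h2⟩ := att_per S hLP hAm hf hN hS hfin hφB he hb₁ hu
      refine ⟨K, hK, A₀ * (C * C'), by positivity, fun n => ?_⟩
      obtain ⟨x1, x2⟩ := exp_floor hN (-L) n
      have h3 := (hl (n / N)).2
      rw [hneg] at h3
      calc Real.exp (n * (-L / N)) ≤ A₀ * Real.exp ((n / N : ℕ) * (-L)) := x1
        _ ≤ A₀ * (C * Lam S.g Φ u (n / N) A) := by gcongr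
        _ ≤ A₀ * (C * (C' * ∑ m ∈ Finset.Icc 1 K, PZ F φ (n + m))) := by
          have := h2 n
          gcongr
        _ = _ := by ring
    · obtain ⟨s', hs', h1⟩ := up hf hN hφB hr₁0
      obtain ⟨C', hC', h2⟩ := hQup s' hs'
      refine ⟨Real.exp (N * B) * (C' * A₀), by positivity, fun n hn => ?_⟩
      obtain ⟨x1, x2⟩ := exp_floor hN (-L) n
      have h3 := h1 n (h ⁻¹' Q)
      rw [← hS] at h3
      have h4 := h2 (n / N)
      rw [hneg] at h4
      have h5 := lam_mono (g := S.g) hΦB hs' (n := n / N) (image_preimage_subset h Q)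
      calc PZ F φ n ≤ Lam F φ r₁ n (h ⁻¹' Q) := by
            refine pz_le hf hLP' hr₁0 hr₁ hn hφB fun x hx => hQ (h x) n hn ?_
            rw [← conj_iter hf, hx]
        _ ≤ Real.exp (N * B) * Lam S.g Φ s' (n / N) (h '' (h ⁻¹' Q)) := h3
        _ ≤ Real.exp (N * B) * Lam S.g Φ s' (n / N) Q := by gcongr
        _ ≤ Real.exp (N * B) * (C' * Real.exp ((n / N : ℕ) * (-L))) := by gcongr
        _ ≤ Real.exp (N * B) * (C' * (A₀ * Real.exp (n * (-L / N)))) := by gcongr
        _ = _ := by ring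

end Pool.Agent.V7H52.PG
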