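import Pool.Agent.V7H52.PG.B7

set_option autoImplicit false
set_option linter.unusedSectionVars false

open Filter Topology Set Metric MeasureTheory

namespace Pool.Agent.V7H52.PG

open Pool.Agent.H789R2.AN Pool.Agent.Y330.G Pool.Agent.N520.T Pool.Agent.H721R2
  Pool.Agent.Y321.PJ Pool.Agent.V7H52.AG

theorem tend_const (K Q : ℝ) : Tendsto (fun n : ℕ => K / (n : ℝ) + Q) atTop (𝓝 Q) := by
  have h1 : Tendsto (fun n : ℕ => K / (n : ℝ)) atTop (𝓝 0) := tendsto_const_div_atTop_nhds_zero_nat K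
  simpa using h1.add_const Q

theorem log_up {a : ℕ → ℝ} {C Q : ℝ} (hC : 0 < C) (ha : ∀ n, 0 < a n)
    (h : ∀ n : ℕ, a n ≤ C * Real.exp (n * Q)) {n : ℕ} (hn : 1 ≤ n) :
    Real.log (a n) / n ≤ Real.log C / n + Q := by
  have hn0 : (0 : ℝ) < n := by exact_mod_cast hn
  have h1 := Real.log_le_log (ha n) (h n)
  rw [Real.log_mul hC.ne' (Real.exp_pos _).ne', Real.log_exp] at h1
  calc Real.log (a n) / n ≤ (Real.log C + n * Q) / n := by gcongr
    _ = _ := by field_simp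

theorem log_low {a : ℕ → ℝ} {C Q : ℝ} (hC : 0 < C) (ha : ∀ n, 0 < a n)
    (h : ∀ n : ℕ, Real.exp (n * Q) ≤ C * a n) {n : ℕ} (hn : 1 ≤ n) :
    -Real.log C / n + Q ≤ Real.log (a n) / n := by
  have hn0 : (0 : ℝ) < n := by exact_mod_cast hn
  have h1 := Real.log_le_log (Real.exp_pos _) (h n)
  rw [Real.log_mul hC.ne' (ha n).ne', Real.log_exp] at h1
  calc -Real.log C / n + Q = (-Real.log C + n * Q) / n := by field_simp
    _ ≤ Real.log (a n) / n := by
      gcongr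
      linarith

theorem bdd_of {u v : ℕ → ℝ} {Q : ℝ} (hv : Tendsto v atTop (𝓝 Q)) (h : ∀ᶠ n in atTop, u n ≤ v n) :
    IsBoundedUnder (· ≤ ·) atTop u := hv.isBoundedUnder_le.mono_le h

theorem bdd_of' {u v : ℕ → ℝ} {Q : ℝ} (hv : Tendsto v atTop (𝓝 Q)) (h : ∀ᶠ n in atTop, v n ≤ u n) :
    IsBoundedUnder (· ≥ ·) atTop u := hv.isBoundedUnder_ge.mono_ge h

theorem ls_le {a : ℕ → ℝ} {C D Q B : ℝ} (hC : 0 < C) (hD : 0 < D) (ha : ∀ n, 0 < a n)
    (hB : ∀ n : ℕ, Real.exp (n * B) ≤ D * a n) (h : ∀ n : ℕ, a n ≤ C * Real.exp (n * Q)) :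
    limsup (fun n : ℕ => Real.log (a n) / n) atTop ≤ Q := by
  have h1 : ∀ᶠ n : ℕ in atTop, Real.log (a n) / n ≤ Real.log C / n + Q := by
    filter_upwards [eventually_ge_atTop 1] with n hn
    exact log_up hC ha h hn
  have h2 : ∀ᶠ n : ℕ in atTop, -Real.log D / n + B ≤ Real.log (a n) / n := by
    filter_upwards [eventually_ge_atTop 1] with n hn
    exact log_low hD ha hB hn
  have h3 := tend_const (Real.log C) Q
  calc limsup (fun n : ℕ => Real.log (a n) / n) atTop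
      ≤ limsup (fun n : ℕ => Real.log C / n + Q) atTop :=
        limsup_le_limsup h1 (bdd_of' (tend_const _ _) h2).isCoboundedUnder_le
          h3.isBoundedUnder_le
    _ = Q := h3.limsup_eq

theorem le_ls {a : ℕ → ℝ} {C D Q B : ℝ} (hC : 0 < C) (hD : 0 < D) (ha : ∀ n, 0 < a n)
    (hB : ∀ n : ℕ, a n ≤ D * Real.exp (n * B)) (h : ∀ n : ℕ, Real.exp (n * Q) ≤ C * a n) :
    Q ≤ limsup (fun n : ℕ => Real.log (a n) / n) atTop := by
  have h1 : ∀ᶠ n : ℕ in atTop, Real.log (a n) / n ≤ Real.log D / n + B := by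
    filter_upwards [eventually_ge_atTop 1] with n hn
    exact log_up hD ha hB hn
  have h2 : ∀ᶠ n : ℕ in atTop, -Real.log C / n + Q ≤ Real.log (a n) / n := by
    filter_upwards [eventually_ge_atTop 1] with n hn
    exact log_low hC ha h hn
  have h3 := tend_const (-Real.log C) Q
  calc Q = limsup (fun n : ℕ => -Real.log C / n + Q) atTop := h3.limsup_eq.symm
    _ ≤ limsup (fun n : ℕ => Real.log (a n) / n) atTop :=
        limsup_le_limsup h2 h3.isBoundedUnder_ge.isCoboundedUnder_le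
          (bdd_of (tend_const _ _) h1)

/-- The value of the pressure. -/
theorem sup_eq {A : ℝ → ℕ → ℝ} {P B ε₀ : ℝ} (hε₀ : 0 < ε₀) (ha : ∀ s > 0, ∀ n, 0 < A s n)
    (hB : ∀ s > 0, ∀ n : ℕ, Real.exp (n * B) ≤ A s n)
    (hup : ∀ s > 0, ∃ C > 0, ∀ n : ℕ, A s n ≤ C * ((n + 1) * Real.exp (n * P)))
    (hlow : ∀ s > 0, s ≤ ε₀ → ∃ C > 0, ∀ n : ℕ, Real.exp (n * P) ≤ C * A s n) :
    ⨆ s : {s : ℝ // 0 < s}, limsup (fun n : ℕ => Real.log (A s n) / n) atTop = P := by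
  haveI : Nonempty {s : ℝ // 0 < s} := ⟨⟨1, one_pos⟩⟩
  have hε : ∀ ε > 0, ∀ s > 0, ∃ C > 0, ∀ n : ℕ, A s n ≤ C * Real.exp (n * (P + ε)) := by
    intro ε hε s hs
    obtain ⟨C, hC, h1⟩ := hup s hs
    refine ⟨C * (1 + 1 / ε), by positivity, fun n => ?_⟩
    have h2 : (n : ℝ) + 1 ≤ (1 + 1 / ε) * Real.exp (n * ε) := by
      have h3 := Real.add_one_le_exp ((n : ℝ) * ε)
      have h4 : (0 : ℝ) ≤ n * ε := by positivity
      have h5 : (1 : ℝ) ≤ Real.exp (n * ε) := by linarith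
      have h6 : (n : ℝ) ≤ 1 / ε * Real.exp (n * ε) := by
        rw [one_div, ← div_eq_inv_mul, le_div_iff₀ hε]
        linarith
      linarith
    calc A s n ≤ C * ((n + 1) * Real.exp (n * P)) := h1 n
      _ ≤ C * (((1 + 1 / ε) * Real.exp (n * ε)) * Real.exp (n * P)) := by gcongr
      _ = C * (1 + 1 / ε) * (Real.exp (n * ε) * Real.exp (n * P)) := by ring
      _ = _ := by
        rw [← Real.exp_add]
        congr 2
        ring
  have hle : ∀ s : {s : ℝ // 0 < s}, limsup (fun n : ℕ => Real.log (A s n) / n) atTop ≤ P := by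
    intro s
    refine le_of_forall_pos_le_add fun ε hε' => ?_
    obtain ⟨C, hC, h1⟩ := hε ε hε' s s.2
    exact ls_le hC one_pos (ha s s.2) (fun n => by rw [one_mul]; exact hB s s.2 n) h1
  apply le_antisymm (ciSup_le hle)
  obtain ⟨C, hC, h1⟩ := hlow ε₀ hε₀ le_rfl
  obtain ⟨D, hD, h2⟩ := hε 1 one_pos ε₀ hε₀
  have h3 := le_ls hC hD (ha ε₀ hε₀) h2 h1
  exact h3.trans (le_ciSup (f := fun s : {s : ℝ // 0 < s} =>
    limsup (fun n : ℕ => Real.log (A s n) / n) atTop) ⟨P, by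
      rintro _ ⟨s, rfl⟩
      exact hle s⟩ ⟨ε₀, hε₀⟩)

end Pool.Agent.V7H52.PG
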